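import Mathlib

/-!
# Lie superalgebras and the module induced from the even part: the recursion
-/

set_option autoImplicit false
set_option maxHeartbeats 1000000
set_option linter.unusedSectionVars false

namespace Pool.Agent.V8H22.SLA

/-- A Lie superalgebra over `k` (characteristic not `2`) with even part `g` and odd part `V`: the even part is a Lie
algebra, the odd part is a `g`-module, `br` is the bracket of odd elements. -/
structure SLie (k g V : Type) [Field k] [LieRing g] [LieAlgebra k g] [AddCommGroup V] [Module k V]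
    [LieRingModule g V] [LieModule k g V] where
  br : V →ₗ[k] V →ₗ[k] g
  symm : ∀ x y, br x y = br y x
  equiv : ∀ (a : g) (x y : V), ⁅a, br x y⁆ = br ⁅a, x⁆ y + br x ⁅a, y⁆
  jac : ∀ x, ⁅br x x, x⁆ = 0

variable {k g V Q ι : Type} [Field k] [LieRing g] [LieAlgebra k g] [AddCommGroup V] [Module k V]
  [LieRingModule g V] [LieModule k g V] [AddCommGroup Q] [Module k Q] [LinearOrder ι]

/-- the polarised Jacobi identity -/
lemma SLie.jac3 (S : SLie k g V) (h2 : (2:k) ≠ 0) (x y z : V) :
    ⁅S.br x y, z⁆ + ⁅S.br y z, x⁆ + ⁅S.br z x, y⁆ = 0 := by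
  have h1 := S.jac (x + y + z)
  have hxy := S.jac (x + y)
  have hyz := S.jac (y + z)
  have hzx := S.jac (z + x)
  have hx := S.jac x
  have hy := S.jac y
  have hz := S.jac z
  simp only [map_add, LinearMap.add_apply, add_lie, lie_add, S.symm y x, S.symm z x, S.symm z y] at *
  have h3 : (2:k) • (⁅S.br x y, z⁆ + ⁅S.br y z, x⁆ + ⁅S.br x z, y⁆) = 0 := by
    linear_combination (norm := module) h1 - hxy - hyz - hzx + hx + hy + hz
  exact (smul_eq_zero.1 h3).resolve_left h2

/-- the vector space of the induced module -/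
abbrev PP (ι Q : Type) [AddCommGroup Q] := Finset ι →₀ Q

/-- the part of degree less than `n` -/
def Lt (k : Type) [Field k] (ι Q : Type) [AddCommGroup Q] [Module k Q] (n : ℕ) : Submodule k (PP ι Q) :=
  Finsupp.supported Q k {I : Finset ι | I.card < n}

/-- basis vectors -/
noncomputable abbrev sn (I : Finset ι) (q : Q) : PP ι Q := Finsupp.single I q

omit [LinearOrder ι] in
lemma sn_mem {I : Finset ι} {n : ℕ} (h : I.card < n) (q : Q) : sn I q ∈ Lt k ι Q n :=
  Finsupp.single_mem_supported k q h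

omit [LinearOrder ι] in
lemma Lt_mono {m n : ℕ} (h : m ≤ n) : Lt k ι Q m ≤ Lt k ι Q n :=
  Finsupp.supported_mono fun I (hI : I.card < m) => lt_of_lt_of_le hI h

omit [LinearOrder ι] in
lemma Lt_zero {p : PP ι Q} (h : p ∈ Lt k ι Q 0) : p = 0 := by
  have h1 : Lt k ι Q 0 = ⊥ := by
    unfold Lt
    have : {I : Finset ι | I.card < 0} = ∅ := by ext; simp
    rw [this, Finsupp.supported_empty]
  rw [h1] at h
  exact h

omit [LinearOrder ι] in
lemma Lt_top [Fintype ι] (p : PP ι Q) {n : ℕ} (hn : Fintype.card ι < n) : p ∈ Lt k ι Q n := by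
  intro I _
  exact lt_of_le_of_lt (Finset.card_le_univ I) hn

omit [LinearOrder ι] in
/-- induction on the elements of bounded degree -/
lemma Lt_ind {n : ℕ} {C : PP ι Q → Prop} (h0 : C 0) (ha : ∀ p r, C p → C r → C (p + r))
    (hs : ∀ (I : Finset ι) (q : Q), I.card < n → C (sn I q)) {p : PP ι Q} (hp : p ∈ Lt k ι Q n) : C p := by
  classical
  have h1 : ∀ s : Finset (Finset ι), (∀ I ∈ s, I.card < n) → C (∑ I ∈ s, sn I (p I)) := by
    intro s
    induction s using Finset.induction_on with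
    | empty => intro _; simpa using h0
    | insert I s hI ih =>
      intro h
      rw [Finset.sum_insert hI]
      exact ha _ _ (hs _ _ (h I (Finset.mem_insert_self _ _)))
        (ih fun J hJ => h J (Finset.mem_insert_of_mem hJ))
  have h2 : ∑ I ∈ p.support, sn I (p I) = p := Finsupp.sum_single p
  rw [← h2]
  exact h1 _ fun I hI => hp hI

omit [LinearOrder ι] in
lemma Lt_ext {W : Type} [AddCommGroup W] [Module k W] {n : ℕ} {φ ψ : PP ι Q →ₗ[k] W}
    (h : ∀ (I : Finset ι) (q : Q), I.card < n → φ (sn I q) = ψ (sn I q)) {p : PP ι Q}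
    (hp : p ∈ Lt k ι Q n) : φ p = ψ p :=
  Lt_ind (C := fun p => φ p = ψ p) (by simp) (fun p r hp hr => by simp only [map_add, hp, hr]) h hp

omit [LinearOrder ι] in
lemma Lt_map {W : Type} [AddCommGroup W] [Module k W] {n : ℕ} {φ : PP ι Q →ₗ[k] W} {N : Submodule k W}
    (h : ∀ (I : Finset ι) (q : Q), I.card < n → φ (sn I q) ∈ N) {p : PP ι Q}
    (hp : p ∈ Lt k ι Q n) : φ p ∈ N :=
  Lt_ind (C := fun p => φ p ∈ N) (by simp) (fun p r hp hr => by rw [map_add]; exact N.add_mem hp hr) h hp

/-- the sign -/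
def sg (k : Type) [Field k] (j : ι) (I : Finset ι) : k := (-1) ^ (I.filter (· < j)).card

/-- left exterior multiplication by `e_j` -/
noncomputable def Wd (k : Type) [Field k] {Q ι : Type} [AddCommGroup Q] [Module k Q] [LinearOrder ι] (j : ι) :
    PP ι Q →ₗ[k] PP ι Q :=
  Finsupp.lsum k fun I => if j ∈ I then 0 else sg k j I • Finsupp.lsingle (insert j I)

lemma Wd_mem {j : ι} {I : Finset ι} (h : j ∈ I) (q : Q) : Wd k j (sn I q) = 0 := by
  unfold Wd sn
  rw [Finsupp.lsum_single, if_pos h]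
  rfl

lemma Wd_notMem {j : ι} {I : Finset ι} (h : j ∉ I) (q : Q) : Wd k j (sn I q) = sg k j I • sn (insert j I) q := by
  unfold Wd sn
  rw [Finsupp.lsum_single, if_neg h]
  rfl

lemma sg_lt {j : ι} {I : Finset ι} (h : ∀ i ∈ I, j < i) : sg k j I = 1 := by
  unfold sg
  have : I.filter (· < j) = ∅ := by
    refine Finset.filter_eq_empty_iff.2 fun i hi => ?_
    exact not_lt.2 (h i hi).le
  rw [this]
  simp

lemma Wd_lt {j : ι} {I : Finset ι} (h : ∀ i ∈ I, j < i) (q : Q) : Wd k j (sn I q) = sn (insert j I) q := by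
  rw [Wd_notMem (fun hj => lt_irrefl _ (h j hj)), sg_lt h, one_smul]

lemma Wd_deg (j : ι) {n : ℕ} {p : PP ι Q} (hp : p ∈ Lt k ι Q n) : Wd k j p ∈ Lt k ι Q (n + 1) := by
  refine Lt_map (fun I q hI => ?_) hp
  by_cases h : j ∈ I
  · rw [Wd_mem h]; exact Submodule.zero_mem _
  · rw [Wd_notMem h]
    refine Submodule.smul_mem _ _ (sn_mem ?_ q)
    rw [Finset.card_insert_of_notMem h]
    omega

lemma sg_insert {i j : ι} {I : Finset ι} (hi : i ∉ I) :
    sg k j (insert i I) = (if i < j then -1 else 1) * sg k j I := by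
  unfold sg
  rw [Finset.filter_insert]
  split_ifs with h
  · rw [Finset.card_insert_of_notMem (by simp [hi]), pow_succ, mul_comm]
  · rw [one_mul]

lemma Wd_anti (i j : ι) (p : PP ι Q) : Wd k i (Wd k j p) + Wd k j (Wd k i p) = 0 := by
  have h : (Wd k i ∘ₗ Wd k j + Wd k j ∘ₗ Wd k i : PP ι Q →ₗ[k] PP ι Q) = 0 := by
    refine Finsupp.lhom_ext fun I q => ?_
    simp only [LinearMap.add_apply, LinearMap.comp_apply, LinearMap.zero_apply]
    change Wd k i (Wd k j (sn I q)) + Wd k j (Wd k i (sn I q)) = 0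
    by_cases hj : j ∈ I
    · rw [Wd_mem hj, map_zero, zero_add]
      by_cases hi : i ∈ I
      · rw [Wd_mem hi, map_zero]
      · rw [Wd_notMem hi, map_smul, Wd_mem (Finset.mem_insert_of_mem hj), smul_zero]
    · by_cases hi : i ∈ I
      · rw [Wd_mem hi, map_zero, add_zero, Wd_notMem hj, map_smul, Wd_mem (Finset.mem_insert_of_mem hi), smul_zero]
      · rw [Wd_notMem hi, Wd_notMem hj, map_smul, map_smul]
        by_cases hij : i = j
        · subst hij
          rw [Wd_mem (Finset.mem_insert_self _ _)]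
          simp
        · rw [Wd_notMem (by simp [hij, hi]), Wd_notMem (by simp [Ne.symm hij, hj]), smul_smul, smul_smul,
            sg_insert hj, sg_insert hi, Finset.insert_comm i j I]
          rcases lt_or_gt_of_ne hij with h | h
          · rw [if_neg (not_lt.2 h.le), if_pos h, ← add_smul]
            convert zero_smul k _ using 2
            ring
          · rw [if_pos h, if_neg (not_lt.2 h.le), ← add_smul]
            convert zero_smul k _ using 2
            ring
  exact LinearMap.congr_fun h p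

variable (S : SLie k g V) (b : Module.Basis ι k V) (ρ : g →ₗ[k] Module.End k Q)

/-- one step of the recursion: the action of odd elements -/
noncomputable def stX (X : ι → PP ι Q →ₗ[k] PP ι Q) (Y : g → PP ι Q →ₗ[k] PP ι Q) (j : ι) :
    PP ι Q →ₗ[k] PP ι Q :=
  Finsupp.lsum k fun I => if h : I.Nonempty then
      Wd k j ∘ₗ Finsupp.lsingle I + (if j < I.min' h then 0 else if j = I.min' h then
        (2⁻¹ : k) • (Y (S.br (b j) (b j)) ∘ₗ Finsupp.lsingle (I.erase (I.min' h)))
        else (Y (S.br (b (I.min' h)) (b j)) ∘ₗ Finsupp.lsingle (I.erase (I.min' h)) -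
          X (I.min' h) ∘ₗ (X j - Wd k j) ∘ₗ Finsupp.lsingle (I.erase (I.min' h))))
    else Wd k j ∘ₗ Finsupp.lsingle I

/-- one step of the recursion: the action of even elements -/
noncomputable def stY (X : ι → PP ι Q →ₗ[k] PP ι Q) (Y : g → PP ι Q →ₗ[k] PP ι Q) (y : g) :
    PP ι Q →ₗ[k] PP ι Q :=
  Finsupp.lsum k fun I => if h : I.Nonempty then
      (b.constr k X ⁅y, b (I.min' h)⁆ + X (I.min' h) ∘ₗ Y y) ∘ₗ Finsupp.lsingle (I.erase (I.min' h))
    else Finsupp.lsingle I ∘ₗ ρ y

/-- the recursion -/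
noncomputable def RR : ℕ → (ι → PP ι Q →ₗ[k] PP ι Q) × (g → PP ι Q →ₗ[k] PP ι Q)
  | 0 => (fun j => Wd k j, fun y => Finsupp.mapRange.linearMap (ρ y))
  | m + 1 => (stX S b (RR m).1 (RR m).2, stY b ρ (RR m).1 (RR m).2)

lemma min'_ins {i : ι} {I : Finset ι} (h : ∀ j ∈ I, i < j) (hne : (insert i I).Nonempty) :
    (insert i I).min' hne = i := by
  refine le_antisymm (Finset.min'_le _ _ (Finset.mem_insert_self _ _)) (Finset.le_min' _ _ _ fun j hj => ?_)
  rcases Finset.mem_insert.1 hj with rfl | hj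
  · exact le_rfl
  · exact (h j hj).le

lemma erase_ins {i : ι} {I : Finset ι} (h : ∀ j ∈ I, i < j) : (insert i I).erase i = I :=
  Finset.erase_insert fun hi => lt_irrefl _ (h i hi)

section
variable (X : ι → PP ι Q →ₗ[k] PP ι Q) (Y : g → PP ι Q →ₗ[k] PP ι Q)

lemma stX_empty (j : ι) (q : Q) : stX S b X Y j (sn ∅ q) = Wd k j (sn ∅ q) := by
  unfold stX sn
  rw [Finsupp.lsum_single, dif_neg (by simp)]
  rfl

lemma stX_ins {i j : ι} {I : Finset ι} (h : ∀ l ∈ I, i < l) (q : Q) :
    stX S b X Y j (sn (insert i I) q) = Wd k j (sn (insert i I) q) + (if j < i then 0 else if j = i then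
        (2⁻¹ : k) • Y (S.br (b j) (b j)) (sn I q) else Y (S.br (b i) (b j)) (sn I q) -
          X i (X j (sn I q) - Wd k j (sn I q))) := by
  have hne : (insert i I).Nonempty := Finset.insert_nonempty _ _
  have e1 := min'_ins h hne
  have e2 := erase_ins h
  unfold stX sn
  rw [Finsupp.lsum_single, dif_pos hne]
  simp only [e1, e2, LinearMap.add_apply, LinearMap.comp_apply, Finsupp.lsingle_apply]
  congr 1
  split_ifs <;> simp

lemma stY_empty (y : g) (q : Q) : stY b ρ X Y y (sn ∅ q) = sn ∅ (ρ y q) := by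
  unfold stY sn
  rw [Finsupp.lsum_single, dif_neg (by simp)]
  rfl

lemma stY_ins {i : ι} {I : Finset ι} (h : ∀ l ∈ I, i < l) (y : g) (q : Q) :
    stY b ρ X Y y (sn (insert i I) q) = b.constr k X ⁅y, b i⁆ (sn I q) + X i (Y y (sn I q)) := by
  have hne : (insert i I).Nonempty := Finset.insert_nonempty _ _
  have e1 := min'_ins h hne
  have e2 := erase_ins h
  unfold stY sn
  rw [Finsupp.lsum_single, dif_pos hne]
  simp only [e1, e2, LinearMap.add_apply, LinearMap.comp_apply, Finsupp.lsingle_apply]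

end

/-- case distinction on finite sets -/
lemma fs_cases (I : Finset ι) : I = ∅ ∨ ∃ (i : ι) (J : Finset ι), (∀ l ∈ J, i < l) ∧ I = insert i J ∧
    J.card + 1 = I.card := by
  rcases I.eq_empty_or_nonempty with h | h
  · exact Or.inl h
  · refine Or.inr ⟨I.min' h, I.erase (I.min' h), fun l hl => ?_, (Finset.insert_erase (Finset.min'_mem _ _)).symm,
      Finset.card_erase_add_one (Finset.min'_mem _ _)⟩
    exact Finset.min'_lt_of_mem_erase_min' _ _ hl

lemma constr_deg {X : ι → PP ι Q →ₗ[k] PP ι Q} {N : Submodule k (PP ι Q)} {p : PP ι Q}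
    (h : ∀ j, X j p ∈ N) (v : V) : b.constr k X v p ∈ N := by
  have hv : v ∈ Submodule.span k (Set.range b) := by rw [b.span_eq]; trivial
  induction hv using Submodule.span_induction with
  | mem x hx => obtain ⟨j, rfl⟩ := hx; rw [b.constr_basis]; exact h j
  | zero => simp
  | add x y _ _ hx hy => rw [map_add, LinearMap.add_apply]; exact N.add_mem hx hy
  | smul c x _ hx => rw [map_smul, LinearMap.smul_apply]; exact N.smul_mem _ hx

lemma constr_congr {X X' : ι → PP ι Q →ₗ[k] PP ι Q} {p : PP ι Q}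
    (h : ∀ j, X j p = X' j p) (v : V) : b.constr k X v p = b.constr k X' v p := by
  have hv : v ∈ Submodule.span k (Set.range b) := by rw [b.span_eq]; trivial
  induction hv using Submodule.span_induction with
  | mem x hx => obtain ⟨j, rfl⟩ := hx; rw [b.constr_basis, b.constr_basis]; exact h j
  | zero => simp
  | add x y _ _ hx hy => rw [map_add, LinearMap.add_apply, map_add, LinearMap.add_apply, hx, hy]
  | smul c x _ hx => rw [map_smul, LinearMap.smul_apply, map_smul, LinearMap.smul_apply, hx]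

/-- degrees -/
lemma RR_deg (m : ℕ) : (∀ (n : ℕ) (j : ι) (p : PP ι Q), p ∈ Lt k ι Q (n + 1) →
      (RR S b ρ m).1 j p - Wd k j p ∈ Lt k ι Q n) ∧
    (∀ (n : ℕ) (y : g) (p : PP ι Q), p ∈ Lt k ι Q n → (RR S b ρ m).2 y p ∈ Lt k ι Q n) := by
  induction m with
  | zero =>
    refine ⟨fun n j p _ => ?_, fun n y p hp => ?_⟩
    · simp [RR]
    · refine Lt_map (fun I q hI => ?_) hp
      simp only [RR]
      rw [Finsupp.mapRange.linearMap_apply, Finsupp.mapRange_single]
      exact sn_mem hI _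
  | succ m ih =>
    obtain ⟨ih1, ih2⟩ := ih
    have ih3 : ∀ (n : ℕ) (j : ι) (p : PP ι Q), p ∈ Lt k ι Q n → (RR S b ρ m).1 j p ∈ Lt k ι Q (n + 1) := by
      intro n j p hp
      have h1 := ih1 n j p (Lt_mono (Nat.le_succ n) hp)
      have h2 := Wd_deg j hp
      have h3 := Submodule.add_mem _ (Lt_mono (Nat.le_succ n) h1) h2
      rwa [sub_add_cancel] at h3
    refine ⟨fun n j p hp => ?_, fun n y p hp => ?_⟩
    · have h1 := Lt_map (k := k) (φ := (RR S b ρ (m + 1)).1 j - Wd k j) (N := Lt k ι Q n) (fun I q hI => ?_) hp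
      · simpa using h1
      rw [LinearMap.sub_apply]
      change stX S b (RR S b ρ m).1 (RR S b ρ m).2 j (sn I q) - _ ∈ _
      rcases fs_cases I with rfl | ⟨i, J, hJ, rfl, hc⟩
      · rw [stX_empty, sub_self]; exact Submodule.zero_mem _
      · rw [stX_ins S b _ _ hJ, add_sub_cancel_left]
        have hJn : J.card < n := by omega
        split_ifs with h1 h2
        · exact Submodule.zero_mem _
        · exact Submodule.smul_mem _ _ (ih2 n _ _ (sn_mem hJn q))
        · refine Submodule.sub_mem _ (ih2 n _ _ (sn_mem hJn q)) ?_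
          obtain ⟨n, rfl⟩ : ∃ n', n = n' + 1 := ⟨n - 1, by omega⟩
          exact ih3 n _ _ (ih1 n _ _ (sn_mem hJn q))
    · refine Lt_map (fun I q hI => ?_) hp
      change stY b ρ (RR S b ρ m).1 (RR S b ρ m).2 y (sn I q) ∈ _
      rcases fs_cases I with rfl | ⟨i, J, hJ, rfl, hc⟩
      · rw [stY_empty]; exact sn_mem hI _
      · rw [stY_ins b ρ _ _ hJ]
        obtain ⟨n, rfl⟩ : ∃ n', n = n' + 1 := ⟨n - 1, by omega⟩
        have hJn : J.card < n := by omega
        refine Submodule.add_mem _ (constr_deg b (fun j => ih3 n j _ (sn_mem hJn q)) _) ?_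
        exact ih3 n _ _ (ih2 n _ _ (sn_mem hJn q))

/-- stability -/
lemma RR_stab (m : ℕ) : ∀ p ∈ Lt k ι Q (m + 1), (∀ j, (RR S b ρ (m + 1)).1 j p = (RR S b ρ m).1 j p) ∧
    ∀ y, (RR S b ρ (m + 1)).2 y p = (RR S b ρ m).2 y p := by
  induction m with
  | zero =>
    intro p hp
    refine ⟨fun j => ?_, fun y => ?_⟩
    · refine Lt_ext (fun I q hI => ?_) hp
      have : I = ∅ := Finset.card_eq_zero.1 (by omega)
      subst this
      change stX S b (RR S b ρ 0).1 (RR S b ρ 0).2 j (sn ∅ q) = _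
      rw [stX_empty]
      rfl
    · refine Lt_ext (fun I q hI => ?_) hp
      have : I = ∅ := Finset.card_eq_zero.1 (by omega)
      subst this
      change stY b ρ (RR S b ρ 0).1 (RR S b ρ 0).2 y (sn ∅ q) = _
      rw [stY_empty]
      simp only [RR]
      rw [Finsupp.mapRange.linearMap_apply, Finsupp.mapRange_single]
  | succ m ih =>
    intro p hp
    refine ⟨fun j => ?_, fun y => ?_⟩
    · refine Lt_ext (fun I q hI => ?_) hp
      change stX S b (RR S b ρ (m + 1)).1 (RR S b ρ (m + 1)).2 j (sn I q) =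
        stX S b (RR S b ρ m).1 (RR S b ρ m).2 j (sn I q)
      rcases fs_cases I with rfl | ⟨i, J, hJ, rfl, hc⟩
      · rw [stX_empty, stX_empty]
      · have hJ' : sn J q ∈ Lt k ι Q (m + 1) := sn_mem (by omega) q
        rw [stX_ins S b _ _ hJ, stX_ins S b _ _ hJ]
        congr 1
        split_ifs with h1 h2
        · rfl
        · rw [(ih _ hJ').2]
        · rw [(ih _ hJ').2, (ih _ hJ').1, (ih _ _).1]
          exact Lt_mono (Nat.le_succ m) ((RR_deg S b ρ m).1 m _ _ hJ')
    · refine Lt_ext (fun I q hI => ?_) hp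
      change stY b ρ (RR S b ρ (m + 1)).1 (RR S b ρ (m + 1)).2 y (sn I q) =
        stY b ρ (RR S b ρ m).1 (RR S b ρ m).2 y (sn I q)
      rcases fs_cases I with rfl | ⟨i, J, hJ, rfl, hc⟩
      · rw [stY_empty, stY_empty]
      · have hJ' : sn J q ∈ Lt k ι Q (m + 1) := sn_mem (by omega) q
        rw [stY_ins b ρ _ _ hJ, stY_ins b ρ _ _ hJ, (ih _ hJ').2, (ih _ _).1,
          constr_congr b (fun j => (ih _ hJ').1 j)]
        exact (RR_deg S b ρ m).2 _ _ _ hJ'

end Pool.Agent.V8H22.SLA
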