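import Pool.Agent.V8H22.SLA.A1

/-!
# The induced module: the relations
-/

set_option autoImplicit false
set_option maxHeartbeats 1000000
set_option linter.unusedSectionVars false

namespace Pool.Agent.V8H22.SLA

variable {k g V Q ι : Type} [Field k] [LieRing g] [LieAlgebra k g] [AddCommGroup V] [Module k V]
  [LieRingModule g V] [LieModule k g V] [AddCommGroup Q] [Module k Q] [LinearOrder ι]
  (S : SLie k g V) (b : Module.Basis ι k V) (ρ : g →ₗ[k] Module.End k Q)

lemma RR_add (m : ℕ) (y z : g) : (RR S b ρ m).2 (y + z) = (RR S b ρ m).2 y + (RR S b ρ m).2 z := by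
  induction m with
  | zero =>
    simp only [RR]
    refine Finsupp.lhom_ext fun I q => ?_
    simp only [LinearMap.add_apply, Finsupp.mapRange.linearMap_apply, Finsupp.mapRange_single, map_add,
      Finsupp.single_add]
  | succ m ih =>
    refine Finsupp.lhom_ext fun I q => ?_
    change stY b ρ (RR S b ρ m).1 (RR S b ρ m).2 (y + z) (sn I q) = stY b ρ (RR S b ρ m).1 (RR S b ρ m).2 y (sn I q) +
      stY b ρ (RR S b ρ m).1 (RR S b ρ m).2 z (sn I q)
    rcases fs_cases I with rfl | ⟨i, J, hJ, rfl, -⟩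
    · rw [stY_empty, stY_empty, stY_empty, map_add, LinearMap.add_apply]
      exact Finsupp.single_add _ _ _
    · rw [stY_ins b ρ _ _ hJ, stY_ins b ρ _ _ hJ, stY_ins b ρ _ _ hJ, ih, add_lie, map_add, LinearMap.add_apply,
        LinearMap.add_apply, map_add]
      abel

lemma RR_smul (m : ℕ) (c : k) (y : g) : (RR S b ρ m).2 (c • y) = c • (RR S b ρ m).2 y := by
  induction m with
  | zero =>
    simp only [RR]
    refine Finsupp.lhom_ext fun I q => ?_
    simp only [LinearMap.smul_apply, Finsupp.mapRange.linearMap_apply, Finsupp.mapRange_single, map_smul,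
      Finsupp.smul_single]
  | succ m ih =>
    refine Finsupp.lhom_ext fun I q => ?_
    change stY b ρ (RR S b ρ m).1 (RR S b ρ m).2 (c • y) (sn I q) =
      c • stY b ρ (RR S b ρ m).1 (RR S b ρ m).2 y (sn I q)
    rcases fs_cases I with rfl | ⟨i, J, hJ, rfl, -⟩
    · rw [stY_empty, stY_empty, map_smul, LinearMap.smul_apply]
      exact (Finsupp.smul_single _ _ _).symm
    · rw [stY_ins b ρ _ _ hJ, stY_ins b ρ _ _ hJ, ih, smul_lie, map_smul, LinearMap.smul_apply,
        LinearMap.smul_apply, map_smul, smul_add]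

/-- the recursive description of the induced module -/
structure PreInd (S : SLie k g V) (b : Module.Basis ι k V) (ρ : g →ₗ[k] Module.End k Q)
    (X : V →ₗ[k] PP ι Q →ₗ[k] PP ι Q) (Y : g →ₗ[k] PP ι Q →ₗ[k] PP ι Q) : Prop where
  lead : ∀ (n : ℕ) (j : ι) (p : PP ι Q), p ∈ Lt k ι Q (n + 1) → X (b j) p - Wd k j p ∈ Lt k ι Q n
  degY : ∀ (n : ℕ) (y : g) (p : PP ι Q), p ∈ Lt k ι Q n → Y y p ∈ Lt k ι Q n
  gen : ∀ (j : ι) (I : Finset ι) (q : Q), (∀ l ∈ I, j < l) → X (b j) (sn I q) = sn (insert j I) q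
  sq : ∀ (i : ι) (I : Finset ι) (q : Q), (∀ l ∈ I, i < l) →
    X (b i) (sn (insert i I) q) = (2⁻¹ : k) • Y (S.br (b i) (b i)) (sn I q)
  sw : ∀ (i j : ι) (I : Finset ι) (q : Q), (∀ l ∈ I, i < l) → i < j →
    X (b j) (sn (insert i I) q) = Y (S.br (b i) (b j)) (sn I q) - X (b i) (X (b j) (sn I q))
  Yemp : ∀ (y : g) (q : Q), Y y (sn ∅ q) = sn ∅ (ρ y q)
  Yins : ∀ (i : ι) (I : Finset ι) (y : g) (q : Q), (∀ l ∈ I, i < l) →
    Y y (sn (insert i I) q) = X ⁅y, b i⁆ (sn I q) + X (b i) (Y y (sn I q))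

theorem exists_preInd [Fintype ι] : ∃ (X : V →ₗ[k] PP ι Q →ₗ[k] PP ι Q) (Y : g →ₗ[k] PP ι Q →ₗ[k] PP ι Q),
    PreInd S b ρ X Y := by
  obtain ⟨N, hN⟩ : ∃ N, N = Fintype.card ι := ⟨_, rfl⟩
  obtain ⟨X0, hX0⟩ : ∃ X0, X0 = (RR S b ρ N).1 := ⟨_, rfl⟩
  obtain ⟨Y0, hY0⟩ : ∃ Y0, Y0 = (RR S b ρ N).2 := ⟨_, rfl⟩
  have hst := RR_stab S b ρ N
  have hX1 : ∀ j p, X0 j p = stX S b X0 Y0 j p := by
    intro j p
    have := (hst p (Lt_top p (by omega))).1 j
    rw [hX0, hY0, ← this]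
    rfl
  have hY1 : ∀ y p, Y0 y p = stY b ρ X0 Y0 y p := by
    intro y p
    have := (hst p (Lt_top p (by omega))).2 y
    rw [hX0, hY0, ← this]
    rfl
  have hdeg := RR_deg S b ρ N
  rw [← hX0, ← hY0] at hdeg
  let Y : g →ₗ[k] PP ι Q →ₗ[k] PP ι Q :=
    { toFun := Y0
      map_add' := fun y z => by rw [hY0]; exact RR_add S b ρ N y z
      map_smul' := fun c y => by rw [hY0]; exact RR_smul S b ρ N c y }
  have hgen : ∀ (j : ι) (I : Finset ι) (q : Q), (∀ l ∈ I, j < l) → X0 j (sn I q) = sn (insert j I) q := by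
    intro j I q h
    rw [hX1]
    rcases fs_cases I with rfl | ⟨i, J, hJ, rfl, -⟩
    · rw [stX_empty, Wd_lt h]
    · rw [stX_ins S b _ _ hJ, if_pos (h i (Finset.mem_insert_self _ _)), add_zero, Wd_lt h]
  refine ⟨b.constr k X0, Y, ?_, ?_, ?_, ?_, ?_, ?_, ?_⟩
  · intro n j p hp
    rw [b.constr_basis]
    exact hdeg.1 n j p hp
  · exact hdeg.2
  · intro j I q h
    rw [b.constr_basis]
    exact hgen j I q h
  · intro i I q h
    rw [b.constr_basis, hX1, stX_ins S b _ _ h, if_neg (lt_irrefl _), if_pos rfl,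
      Wd_mem (Finset.mem_insert_self _ _), zero_add]
    rfl
  · intro i j I q h hij
    rw [b.constr_basis, b.constr_basis, hX1 j, stX_ins S b _ _ h, if_neg (not_lt.2 hij.le), if_neg hij.ne']
    have h1 : X0 i (Wd k j (sn I q)) = Wd k i (Wd k j (sn I q)) := by
      by_cases hj : j ∈ I
      · rw [Wd_mem hj, map_zero, map_zero]
      · rw [Wd_notMem hj, map_smul, map_smul]
        have h2 : ∀ l ∈ insert j I, i < l := by
          intro l hl
          rcases Finset.mem_insert.1 hl with rfl | hl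
          · exact hij
          · exact h l hl
        rw [hgen i _ _ h2, Wd_lt h2]
    have h3 : Wd k j (sn (insert i I) q) = Wd k j (Wd k i (sn I q)) := by rw [Wd_lt h]
    have h4 := Wd_anti (k := k) i j (sn I q)
    rw [map_sub, h1, h3]
    change _ = Y0 (S.br (b i) (b j)) (sn I q) - _
    have h5 : Wd k j (Wd k i (sn I q)) = - Wd k i (Wd k j (sn I q)) := eq_neg_of_add_eq_zero_right h4
    rw [h5]
    abel
  · intro y q
    change Y0 y (sn ∅ q) = _
    rw [hY1, stY_empty]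
  · intro i I y q h
    change Y0 y (sn (insert i I) q) = _
    rw [hY1, stY_ins b ρ _ _ h, b.constr_basis]
    rfl

end Pool.Agent.V8H22.SLA
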