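import Pool.Agent.V8H22.SLA.A2

/-!
# The induced module: verification of the relations
-/

set_option autoImplicit false
set_option maxHeartbeats 1000000
set_option linter.unusedSectionVars false

namespace Pool.Agent.V8H22.SLA

variable {k g V Q ι : Type} [Field k] [LieRing g] [LieAlgebra k g] [AddCommGroup V] [Module k V]
  [LieRingModule g V] [LieModule k g V] [AddCommGroup Q] [Module k Q] [LinearOrder ι]
  {S : SLie k g V} {b : Module.Basis ι k V} {ρ : g →ₗ[k] Module.End k Q}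
  {X : V →ₗ[k] PP ι Q →ₗ[k] PP ι Q} {Y : g →ₗ[k] PP ι Q →ₗ[k] PP ι Q}

lemma bas_ind (b : Module.Basis ι k V) {C : V → Prop} (hb : ∀ i, C (b i)) (h0 : C 0)
    (ha : ∀ x y, C x → C y → C (x + y)) (hs : ∀ (c : k) x, C x → C (c • x)) (v : V) : C v := by
  have hv : v ∈ Submodule.span k (Set.range b) := by rw [b.span_eq]; trivial
  induction hv using Submodule.span_induction with
  | mem x hx => obtain ⟨j, rfl⟩ := hx; exact hb j
  | zero => exact h0
  | add x y _ _ hx hy => exact ha x y hx hy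
  | smul c x _ hx => exact hs c x hx

lemma PreInd.degXb (P : PreInd S b ρ X Y) (n : ℕ) (j : ι) {p : PP ι Q} (hp : p ∈ Lt k ι Q n) :
    X (b j) p ∈ Lt k ι Q (n + 1) := by
  have h1 := P.lead n j p (Lt_mono (Nat.le_succ n) hp)
  have h2 := Wd_deg j hp
  have h3 := Submodule.add_mem _ (Lt_mono (Nat.le_succ n) h1) h2
  rwa [sub_add_cancel] at h3

lemma PreInd.degX (P : PreInd S b ρ X Y) (n : ℕ) (v : V) {p : PP ι Q} (hp : p ∈ Lt k ι Q n) :
    X v p ∈ Lt k ι Q (n + 1) := by
  refine bas_ind b (C := fun v => X v p ∈ Lt k ι Q (n + 1)) (fun j => P.degXb n j hp) (by simp)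
    (fun x y hx hy => ?_) (fun c x hx => ?_) v
  · rw [map_add, LinearMap.add_apply]; exact Submodule.add_mem _ hx hy
  · rw [map_smul, LinearMap.smul_apply]; exact Submodule.smul_mem _ _ hx

def C1 (S : SLie k g V) (X : V →ₗ[k] PP ι Q →ₗ[k] PP ι Q) (Y : g →ₗ[k] PP ι Q →ₗ[k] PP ι Q) (n : ℕ) : Prop :=
  ∀ (x z : V) (p : PP ι Q), p ∈ Lt k ι Q n → X x (X z p) + X z (X x p) = Y (S.br x z) p

def C2 (X : V →ₗ[k] PP ι Q →ₗ[k] PP ι Q) (Y : g →ₗ[k] PP ι Q →ₗ[k] PP ι Q) (n : ℕ) : Prop :=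
  ∀ (y : g) (x : V) (p : PP ι Q), p ∈ Lt k ι Q n → Y y (X x p) = X x (Y y p) + X ⁅y, x⁆ p

def C3 (Y : g →ₗ[k] PP ι Q →ₗ[k] PP ι Q) (n : ℕ) : Prop :=
  ∀ (y z : g) (p : PP ι Q), p ∈ Lt k ι Q n → Y y (Y z p) - Y z (Y y p) = Y ⁅y, z⁆ p

/-- case distinction relative to an index -/
lemma fs_cases2 (j : ι) (I : Finset ι) : (∀ l ∈ I, j < l) ∨ ∃ (i : ι) (J : Finset ι), (∀ l ∈ J, i < l) ∧
    I = insert i J ∧ J.card + 1 = I.card ∧ i ≤ j := by
  rcases fs_cases I with rfl | ⟨i, J, hJ, rfl, hc⟩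
  · left; simp
  · rcases lt_or_ge j i with h | h
    · left
      intro l hl
      rcases Finset.mem_insert.1 hl with rfl | hl
      · exact h
      · exact h.trans (hJ l hl)
    · exact Or.inr ⟨i, J, hJ, rfl, hc, h⟩

lemma PreInd.stepC3 (P : PreInd S b ρ X Y) (hρ : ∀ y z q, ρ ⁅y, z⁆ q = ρ y (ρ z q) - ρ z (ρ y q)) {n : ℕ}
    (h2 : C2 (k := k) X Y n) (h3 : C3 (k := k) Y n) : C3 (k := k) Y (n + 1) := by
  intro y z p hp
  have key := Lt_ext (k := k) (φ := Y y ∘ₗ Y z - Y z ∘ₗ Y y) (ψ := Y ⁅y, z⁆) (fun I q hI => ?_) hp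
  · exact key
  simp only [LinearMap.sub_apply, LinearMap.comp_apply]
  rcases fs_cases I with rfl | ⟨i, J, hJ, rfl, hc⟩
  · rw [P.Yemp, P.Yemp, P.Yemp, P.Yemp, P.Yemp, hρ]
    exact (Finsupp.single_sub _ _ _).symm
  · have hv : sn J q ∈ Lt k ι Q n := sn_mem (by omega) q
    have e1 := h2 y (b i) _ hv
    have e2 := h2 z (b i) _ hv
    have e3 := h2 y (b i) _ (P.degY n z _ hv)
    have e4 := h2 z (b i) _ (P.degY n y _ hv)
    have e5 := h2 y ⁅z, b i⁆ _ hv
    have e6 := h2 z ⁅y, b i⁆ _ hv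
    have e7 := h2 ⁅y, z⁆ (b i) _ hv
    have e8 : X ⁅⁅y, z⁆, b i⁆ (sn J q) = X ⁅y, ⁅z, b i⁆⁆ (sn J q) - X ⁅z, ⁅y, b i⁆⁆ (sn J q) := by
      rw [lie_lie, map_sub, LinearMap.sub_apply]
    rw [← P.gen i J q hJ, e2, e1, map_add, map_add, e3, e4, e5, e6, e7, e8]
    have e9 : X (b i) (Y ⁅y, z⁆ (sn J q)) = X (b i) (Y y (Y z (sn J q))) - X (b i) (Y z (Y y (sn J q))) := by
      rw [← map_sub, h3 y z _ hv]
    rw [e9]
    module

lemma PreInd.stepC2 [Fintype ι] (P : PreInd S b ρ X Y) (hk : (2:k) ≠ 0) {n : ℕ} (h1 : C1 (k := k) S X Y n)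
    (h2 : C2 (k := k) X Y n) (h3 : C3 (k := k) Y n) : C2 (k := k) X Y (n + 1) := by
  have key : ∀ j : ι, ∀ (y : g) (p : PP ι Q), p ∈ Lt k ι Q (n + 1) →
      Y y (X (b j) p) = X (b j) (Y y p) + X ⁅y, b j⁆ p := by
    intro j
    induction j using WellFoundedLT.induction with
    | ind j ih =>
    intro y p hp
    have hh := Lt_ext (k := k) (φ := Y y ∘ₗ X (b j)) (ψ := X (b j) ∘ₗ Y y + X ⁅y, b j⁆) (fun I q hI => ?_) hp
    · exact hh
    simp only [LinearMap.add_apply, LinearMap.comp_apply]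
    rcases fs_cases2 j I with hJ | ⟨i, J, hJ, rfl, hc, hij⟩
    · rw [P.gen j I q hJ, P.Yins j I y q hJ, add_comm]
    · have hv : sn J q ∈ Lt k ι Q n := sn_mem (by omega) q
      rcases hij.eq_or_lt with rfl | hij
      · have e0 := P.sq i J q hJ
        rw [← P.gen i J q hJ] at e0 ⊢
        have e2 := h2 y (b i) _ hv
        have e3 := h3 y (S.br (b i) (b i)) _ hv
        have e4 := h1 (b i) (b i) _ (P.degY n y _ hv)
        have e5 := h1 (b i) ⁅y, b i⁆ _ hv
        have e6 : Y ⁅y, S.br (b i) (b i)⁆ (sn J q) = (2:k) • Y (S.br (b i) ⁅y, b i⁆) (sn J q) := by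
          rw [S.equiv, S.symm ⁅y, b i⁆ (b i), map_add, LinearMap.add_apply]
          module
        rw [e0, e2, map_smul, map_add]
        have hk' : (2:k) * 2⁻¹ = 1 := mul_inv_cancel₀ hk
        have e7 : (2:k) • ((2⁻¹ : k) • Y y (Y (S.br (b i) (b i)) (sn J q))) =
            (2:k) • (X (b i) (X (b i) (Y y (sn J q))) + X (b i) (X ⁅y, b i⁆ (sn J q)) + X ⁅y, b i⁆ (X (b i) (sn J q))) := by
          rw [smul_smul, hk', one_smul]
          linear_combination (norm := module) e3 - e4 + e6 - (2:k) • e5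
        exact smul_right_injective _ hk e7
      · have e0 := P.sw i j J q hJ hij
        rw [← P.gen i J q hJ] at e0 ⊢
        have e1 := ih i hij y _ (P.degX n (b j) hv)
        have e2 := h2 y (b j) _ hv
        have e3 := h3 y (S.br (b i) (b j)) _ hv
        have e4 := h2 y (b i) _ hv
        have e5 := h1 (b i) (b j) _ (P.degY n y _ hv)
        have e6 := h1 ⁅y, b i⁆ (b j) _ hv
        have e7 := h1 (b i) ⁅y, b j⁆ _ hv
        have e8 : Y ⁅y, S.br (b i) (b j)⁆ (sn J q) = Y (S.br ⁅y, b i⁆ (b j)) (sn J q) + Y (S.br (b i) ⁅y, b j⁆) (sn J q) := by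
          rw [S.equiv, map_add, LinearMap.add_apply]
        rw [e0, map_sub, e1, e2, map_add, e4, map_add]
        linear_combination (norm := module) e3 - e5 + e8 - e6 - e7
  intro y x p hp
  refine bas_ind b (C := fun x => Y y (X x p) = X x (Y y p) + X ⁅y, x⁆ p) (fun j => key j y p hp) (by simp)
    (fun x z hx hz => ?_) (fun c x hx => ?_) x
  · simp only [map_add, LinearMap.add_apply, lie_add]
    rw [hx, hz]
    abel
  · simp only [map_smul, LinearMap.smul_apply, lie_smul]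
    rw [hx, smul_add]

lemma PreInd.stepC1 [Fintype ι] (P : PreInd S b ρ X Y) (hk : (2:k) ≠ 0) {n : ℕ} (h1 : C1 (k := k) S X Y n)
    (h2 : C2 (k := k) X Y n) : C1 (k := k) S X Y (n + 1) := by
  have key : ∀ j : ι, ∀ l : ι, j ≤ l → ∀ (p : PP ι Q), p ∈ Lt k ι Q (n + 1) →
      X (b j) (X (b l) p) + X (b l) (X (b j) p) = Y (S.br (b j) (b l)) p := by
    intro j
    induction j using WellFoundedLT.induction with
    | ind j ih =>
    have hjj : ∀ (p : PP ι Q), p ∈ Lt k ι Q (n + 1) →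
        X (b j) (X (b j) p) + X (b j) (X (b j) p) = Y (S.br (b j) (b j)) p := by
      intro p hp
      have hh := Lt_ext (k := k) (φ := X (b j) ∘ₗ X (b j) + X (b j) ∘ₗ X (b j))
        (ψ := Y (S.br (b j) (b j))) (fun I q hI => ?_) hp
      · exact hh
      simp only [LinearMap.add_apply, LinearMap.comp_apply]
      rcases fs_cases2 j I with hJ | ⟨i, J, hJ, rfl, hc, hij⟩
      · rw [P.gen j I q hJ, P.sq j I q hJ, ← add_smul]
        have : (2⁻¹ : k) + 2⁻¹ = 1 := by field_simp; norm_num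
        rw [this, one_smul]
      · have hv : sn J q ∈ Lt k ι Q n := sn_mem (by omega) q
        rw [← P.gen i J q hJ]
        rcases hij.eq_or_lt with rfl | hij
        · have e1 := congrArg (X (b i)) (h1 (b i) (b i) _ hv)
          have e2 := h2 (S.br (b i) (b i)) (b i) _ hv
          have e3 : X ⁅S.br (b i) (b i), b i⁆ (sn J q) = 0 := by rw [S.jac, map_zero, LinearMap.zero_apply]
          rw [map_add] at e1
          linear_combination (norm := module) e1 - e2 - e3
        · have f1 := congrArg (X (b j)) (h1 (b i) (b j) _ hv)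
          rw [map_add] at f1
          have f3 := ih i hij j hij.le _ (P.degX n (b j) hv)
          have f5 := h2 (S.br (b i) (b j)) (b j) _ hv
          have f7 := congrArg (X (b i)) (h1 (b j) (b j) _ hv)
          rw [map_add] at f7
          have f8 := h2 (S.br (b j) (b j)) (b i) _ hv
          have f9 : X ⁅S.br (b i) (b j), b j⁆ (sn J q) + X ⁅S.br (b j) (b j), b i⁆ (sn J q) + X ⁅S.br (b i) (b j), b j⁆ (sn J q) = 0 := by
            have := S.jac3 hk (b i) (b j) (b j)
            rw [S.symm (b j) (b i)] at this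
            rw [← LinearMap.add_apply, ← LinearMap.add_apply, ← map_add, ← map_add, this, map_zero,
              LinearMap.zero_apply]
          linear_combination (norm := module) (2:k) • f1 - (2:k) • f3 - (2:k) • f5 + f7 - f8 - f9
    intro l hjl p hp
    rcases hjl.eq_or_lt with rfl | hjl
    · exact hjj p hp
    have hh := Lt_ext (k := k) (φ := X (b j) ∘ₗ X (b l) + X (b l) ∘ₗ X (b j))
      (ψ := Y (S.br (b j) (b l))) (fun I q hI => ?_) hp
    · exact hh
    simp only [LinearMap.add_apply, LinearMap.comp_apply]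
    rcases fs_cases2 j I with hJ | ⟨i, J, hJ, rfl, hc, hij⟩
    · rw [P.gen j I q hJ, P.sw j l I q hJ hjl]
      abel
    · have hv : sn J q ∈ Lt k ι Q n := sn_mem (by omega) q
      rw [← P.gen i J q hJ]
      rcases hij.eq_or_lt with rfl | hij
      · have g1 := congrArg (X (b i)) (h1 (b i) (b l) _ hv)
        have g2 := congrArg (X (b l)) (h1 (b i) (b i) _ hv)
        rw [map_add] at g1 g2
        have g3 := hjj _ (P.degX n (b l) hv)
        have g4 := h2 (S.br (b i) (b i)) (b l) _ hv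
        have g5 := h2 (S.br (b i) (b l)) (b i) _ hv
        have g6 : X ⁅S.br (b i) (b i), b l⁆ (sn J q) + X ⁅S.br (b i) (b l), b i⁆ (sn J q) + X ⁅S.br (b i) (b l), b i⁆ (sn J q) = 0 := by
          have := S.jac3 hk (b i) (b i) (b l)
          rw [S.symm (b l) (b i)] at this
          rw [← LinearMap.add_apply, ← LinearMap.add_apply, ← map_add, ← map_add, this, map_zero,
            LinearMap.zero_apply]
        have goal2 : (2:k) • (X (b i) (X (b l) (X (b i) (sn J q))) + X (b l) (X (b i) (X (b i) (sn J q)))) =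
            (2:k) • Y (S.br (b i) (b l)) (X (b i) (sn J q)) := by
          linear_combination (norm := module) (2:k) • g1 + g2 - g3 - g4 - (2:k) • g5 - g6
        exact smul_right_injective _ hk goal2
      · have f1 := congrArg (X (b j)) (h1 (b i) (b l) _ hv)
        have f2 := congrArg (X (b l)) (h1 (b i) (b j) _ hv)
        rw [map_add] at f1 f2
        have f3 := ih i hij j hij.le _ (P.degX n (b l) hv)
        have f4 := ih i hij l (hij.trans hjl).le _ (P.degX n (b j) hv)
        have f5 := h2 (S.br (b i) (b j)) (b l) _ hv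
        have f6 := h2 (S.br (b i) (b l)) (b j) _ hv
        have f7 := congrArg (X (b i)) (h1 (b j) (b l) _ hv)
        rw [map_add] at f7
        have f8 := h2 (S.br (b j) (b l)) (b i) _ hv
        have f9 : X ⁅S.br (b i) (b j), b l⁆ (sn J q) + X ⁅S.br (b j) (b l), b i⁆ (sn J q) + X ⁅S.br (b i) (b l), b j⁆ (sn J q) = 0 := by
          have := S.jac3 hk (b i) (b j) (b l)
          rw [S.symm (b l) (b i)] at this
          rw [← LinearMap.add_apply, ← LinearMap.add_apply, ← map_add, ← map_add, this, map_zero,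
            LinearMap.zero_apply]
        linear_combination (norm := module) f1 + f2 - f3 - f4 - f5 - f6 + f7 - f8 - f9
  have key2 : ∀ j l : ι, ∀ (p : PP ι Q), p ∈ Lt k ι Q (n + 1) →
      X (b j) (X (b l) p) + X (b l) (X (b j) p) = Y (S.br (b j) (b l)) p := by
    intro j l p hp
    rcases le_total j l with h | h
    · exact key j l h p hp
    · rw [add_comm, S.symm]
      exact key l j h p hp
  intro x z p hp
  refine bas_ind b (C := fun x => X x (X z p) + X z (X x p) = Y (S.br x z) p) (fun j => ?_) (by simp)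
    (fun x y hx hy => ?_) (fun c x hx => ?_) x
  · refine bas_ind b (C := fun z => X (b j) (X z p) + X z (X (b j) p) = Y (S.br (b j) z) p)
      (fun l => key2 j l p hp) (by simp) (fun x y hx hy => ?_) (fun c x hx => ?_) z
    · simp only [map_add, LinearMap.add_apply]
      rw [← hx, ← hy]
      abel
    · simp only [map_smul, LinearMap.smul_apply]
      rw [← hx, smul_add]
  · simp only [map_add, LinearMap.add_apply]
    rw [← hx, ← hy]
    abel
  · simp only [map_smul, LinearMap.smul_apply]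
    rw [← hx, smul_add]

/-- **All relations.** -/
theorem PreInd.rel [Fintype ι] (P : PreInd S b ρ X Y) (hk : (2:k) ≠ 0)
    (hρ : ∀ y z q, ρ ⁅y, z⁆ q = ρ y (ρ z q) - ρ z (ρ y q)) :
    (∀ (x z : V) (p : PP ι Q), X x (X z p) + X z (X x p) = Y (S.br x z) p) ∧
    (∀ (y : g) (x : V) (p : PP ι Q), Y y (X x p) = X x (Y y p) + X ⁅y, x⁆ p) ∧
    (∀ (y z : g) (p : PP ι Q), Y y (Y z p) - Y z (Y y p) = Y ⁅y, z⁆ p) := by
  have h : ∀ n, C1 (k := k) S X Y n ∧ C2 (k := k) X Y n ∧ C3 (k := k) Y n := by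
    intro n
    induction n with
    | zero =>
      refine ⟨fun x z p hp => ?_, fun y x p hp => ?_, fun y z p hp => ?_⟩ <;>
      · rw [Lt_zero hp]; simp
    | succ n ih =>
      obtain ⟨h1, h2, h3⟩ := ih
      exact ⟨P.stepC1 hk h1 h2, P.stepC2 hk h1 h2 h3, P.stepC3 hρ h2 h3⟩
  obtain ⟨h1, h2, h3⟩ := h (Fintype.card ι + 1)
  exact ⟨fun x z p => h1 x z p (Lt_top p (Nat.lt_succ_self _)),
    fun y x p => h2 y x p (Lt_top p (Nat.lt_succ_self _)),
    fun y z p => h3 y z p (Lt_top p (Nat.lt_succ_self _))⟩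

end Pool.Agent.V8H22.SLA
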