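import Pool.Agent.V8H22.SLA.A3

/-!
# The universal property of the induced module
-/

set_option autoImplicit false
set_option maxHeartbeats 1000000
set_option linter.unusedSectionVars false

namespace Pool.Agent.V8H22.SLA

variable {k g V Q Q' M ι : Type} [Field k] [LieRing g] [LieAlgebra k g] [AddCommGroup V] [Module k V]
  [LieRingModule g V] [LieModule k g V] [AddCommGroup Q] [Module k Q] [AddCommGroup Q'] [Module k Q']
  [AddCommGroup M] [Module k M] [LinearOrder ι]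

/-- the induced module with all its properties -/
structure IndM (S : SLie k g V) (b : Module.Basis ι k V) (ρ : g →ₗ[k] Module.End k Q)
    (X : V →ₗ[k] PP ι Q →ₗ[k] PP ι Q) (Y : g →ₗ[k] PP ι Q →ₗ[k] PP ι Q) : Prop where
  pre : PreInd S b ρ X Y
  XX : ∀ (x z : V) (p : PP ι Q), X x (X z p) + X z (X x p) = Y (S.br x z) p
  YX : ∀ (y : g) (x : V) (p : PP ι Q), Y y (X x p) = X x (Y y p) + X ⁅y, x⁆ p
  YY : ∀ (y z : g) (p : PP ι Q), Y y (Y z p) - Y z (Y y p) = Y ⁅y, z⁆ p

theorem exists_indM [Fintype ι] (S : SLie k g V) (b : Module.Basis ι k V) (ρ : g →ₗ[k] Module.End k Q)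
    (hk : (2:k) ≠ 0) (hρ : ∀ y z q, ρ ⁅y, z⁆ q = ρ y (ρ z q) - ρ z (ρ y q)) :
    ∃ (X : V →ₗ[k] PP ι Q →ₗ[k] PP ι Q) (Y : g →ₗ[k] PP ι Q →ₗ[k] PP ι Q), IndM S b ρ X Y := by
  obtain ⟨X, Y, P⟩ := exists_preInd S b ρ
  obtain ⟨h1, h2, h3⟩ := P.rel hk hρ
  exact ⟨X, Y, P, h1, h2, h3⟩

variable {S : SLie k g V} {b : Module.Basis ι k V} {ρ : g →ₗ[k] Module.End k Q} {ρ' : g →ₗ[k] Module.End k Q'}
  {X : V →ₗ[k] PP ι Q →ₗ[k] PP ι Q} {Y : g →ₗ[k] PP ι Q →ₗ[k] PP ι Q}
  {X' : V →ₗ[k] PP ι Q' →ₗ[k] PP ι Q'} {Y' : g →ₗ[k] PP ι Q' →ₗ[k] PP ι Q'}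

/-- the map -/
noncomputable def uni (b : Module.Basis ι k V) (XM : V →ₗ[k] M →ₗ[k] M) (φ : Q →ₗ[k] M) : PP ι Q →ₗ[k] M :=
  Finsupp.lsum k fun I => ((I.sort (· ≤ ·)).map (fun i => XM (b i))).prod ∘ₗ φ

lemma uni_empty (b : Module.Basis ι k V) (XM : V →ₗ[k] M →ₗ[k] M) (φ : Q →ₗ[k] M) (q : Q) :
    uni b XM φ (sn ∅ q) = φ q := by
  unfold uni sn
  rw [Finsupp.lsum_single]
  simp

lemma uni_ins (b : Module.Basis ι k V) (XM : V →ₗ[k] M →ₗ[k] M) (φ : Q →ₗ[k] M) {i : ι} {I : Finset ι}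
    (h : ∀ l ∈ I, i < l) (q : Q) : uni b XM φ (sn (insert i I) q) = XM (b i) (uni b XM φ (sn I q)) := by
  unfold uni sn
  rw [Finsupp.lsum_single, Finsupp.lsum_single, Finset.sort_insert (r := (· ≤ ·)) (fun l hl => (h l hl).le)
    (fun hi => lt_irrefl _ (h i hi)), List.map_cons, List.prod_cons]
  rfl

/-- **Universal property.** -/
theorem PreInd.uni_map [Fintype ι] (P : PreInd S b ρ X Y) (hk : (2:k) ≠ 0) {XM : V →ₗ[k] M →ₗ[k] M}
    {YM : g →ₗ[k] M →ₗ[k] M} (hXX : ∀ x z m, XM x (XM z m) + XM z (XM x m) = YM (S.br x z) m)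
    (hYX : ∀ y x m, YM y (XM x m) = XM x (YM y m) + XM ⁅y, x⁆ m) {φ : Q →ₗ[k] M}
    (hφ : ∀ y q, φ (ρ y q) = YM y (φ q)) :
    (∀ x p, uni b XM φ (X x p) = XM x (uni b XM φ p)) ∧ ∀ y p, uni b XM φ (Y y p) = YM y (uni b XM φ p) := by
  have key : ∀ n : ℕ, (∀ (j : ι) (p : PP ι Q), p ∈ Lt k ι Q n →
      uni b XM φ (X (b j) p) = XM (b j) (uni b XM φ p)) ∧
      (∀ (y : g) (p : PP ι Q), p ∈ Lt k ι Q n → uni b XM φ (Y y p) = YM y (uni b XM φ p)) := by
    intro n
    induction n with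
    | zero =>
      refine ⟨fun j p hp => ?_, fun y p hp => ?_⟩ <;>
      · rw [Lt_zero hp]; simp
    | succ n ih =>
      obtain ⟨ih1, ih2⟩ := ih
      have ih1' : ∀ (x : V) (p : PP ι Q), p ∈ Lt k ι Q n → uni b XM φ (X x p) = XM x (uni b XM φ p) := by
        intro x p hp
        refine bas_ind b (C := fun x => uni b XM φ (X x p) = XM x (uni b XM φ p)) (fun j => ih1 j p hp)
          (by simp) (fun x y hx hy => ?_) (fun c x hx => ?_) x
        · simp only [map_add, LinearMap.add_apply, hx, hy]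
        · simp only [map_smul, LinearMap.smul_apply, hx]
      refine ⟨fun j => ?_, fun y p hp => ?_⟩
      · induction j using WellFoundedLT.induction with
        | ind j ihj =>
        intro p hp
        have hh := Lt_ext (k := k) (φ := uni b XM φ ∘ₗ X (b j)) (ψ := XM (b j) ∘ₗ uni b XM φ)
          (fun I q hI => ?_) hp
        · exact hh
        simp only [LinearMap.comp_apply]
        rcases fs_cases2 j I with hJ | ⟨i, J, hJ, rfl, hc, hij⟩
        · rw [P.gen j I q hJ, uni_ins b XM φ hJ]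
        · have hv : sn J q ∈ Lt k ι Q n := sn_mem (by omega) q
          rw [uni_ins b XM φ hJ]
          rcases hij.eq_or_lt with rfl | hij
          · rw [P.sq i J q hJ, map_smul, ih2 _ _ hv, ← hXX, ← two_smul k, smul_smul, inv_mul_cancel₀ hk, one_smul]
          · rw [P.sw i j J q hJ hij, map_sub, ih2 _ _ hv, ihj i hij _ (P.degXb n j hv), ih1 j _ hv, ← hXX]
            abel
      · have hh := Lt_ext (k := k) (φ := uni b XM φ ∘ₗ Y y) (ψ := YM y ∘ₗ uni b XM φ)
          (fun I q hI => ?_) hp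
        · exact hh
        simp only [LinearMap.comp_apply]
        rcases fs_cases I with rfl | ⟨i, J, hJ, rfl, hc⟩
        · rw [P.Yemp, uni_empty, uni_empty, hφ]
        · have hv : sn J q ∈ Lt k ι Q n := sn_mem (by omega) q
          rw [P.Yins i J y q hJ, map_add, ih1' _ _ hv, ih1 i _ (P.degY n y _ hv), ih2 y _ hv,
            uni_ins b XM φ hJ, hYX, add_comm]
  obtain ⟨k1, k2⟩ := key (Fintype.card ι + 1)
  refine ⟨fun x p => ?_, fun y p => k2 y p (Lt_top p (Nat.lt_succ_self _))⟩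
  refine bas_ind b (C := fun x => uni b XM φ (X x p) = XM x (uni b XM φ p))
    (fun j => k1 j p (Lt_top p (Nat.lt_succ_self _))) (by simp) (fun x y hx hy => ?_) (fun c x hx => ?_) x
  · simp only [map_add, LinearMap.add_apply, hx, hy]
  · simp only [map_smul, LinearMap.smul_apply, hx]

/-- uniqueness -/
theorem PreInd.uni_ext (P : PreInd S b ρ X Y) {XM : V →ₗ[k] M →ₗ[k] M} {φ ψ : PP ι Q →ₗ[k] M}
    (h1 : ∀ j p, φ (X (b j) p) = XM (b j) (φ p)) (h2 : ∀ j p, ψ (X (b j) p) = XM (b j) (ψ p))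
    (h0 : ∀ q, φ (sn ∅ q) = ψ (sn ∅ q)) : φ = ψ := by
  refine Finsupp.lhom_ext fun I q => ?_
  change φ (sn I q) = ψ (sn I q)
  induction I using Finset.induction_on_min with
  | empty => exact h0 q
  | insert j I hj ih => rw [← P.gen j I q hj, h1, h2, ih]

/-- the induced map between induced modules -/
noncomputable def mp (k : Type) [Field k] (ι : Type) {Q Q' : Type} [AddCommGroup Q] [Module k Q] [AddCommGroup Q']
    [Module k Q'] (θ : Q →ₗ[k] Q') : PP ι Q →ₗ[k] PP ι Q' := Finsupp.mapRange.linearMap θ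

@[simp] lemma mp_sn (θ : Q →ₗ[k] Q') (I : Finset ι) (q : Q) : mp k ι θ (sn I q) = sn I (θ q) := by
  unfold mp sn
  rw [Finsupp.mapRange.linearMap_apply, Finsupp.mapRange_single]

lemma mp_apply (θ : Q →ₗ[k] Q') (p : PP ι Q) (I : Finset ι) : mp k ι θ p I = θ (p I) := by
  unfold mp
  rw [Finsupp.mapRange.linearMap_apply, Finsupp.mapRange_apply]

/-- functoriality -/
theorem IndM.mp_comm [Fintype ι] (P : IndM S b ρ X Y) (P' : IndM S b ρ' X' Y') (hk : (2:k) ≠ 0) {θ : Q →ₗ[k] Q'}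
    (hθ : ∀ y q, θ (ρ y q) = ρ' y (θ q)) :
    (∀ x p, mp k ι θ (X x p) = X' x (mp k ι θ p)) ∧ ∀ y p, mp k ι θ (Y y p) = Y' y (mp k ι θ p) := by
  have h1 := P.pre.uni_map hk (XM := X') (YM := Y') P'.XX P'.YX (φ := Finsupp.lsingle ∅ ∘ₗ θ) (fun y q => by
    simp only [LinearMap.comp_apply, Finsupp.lsingle_apply]
    rw [hθ]
    exact (P'.pre.Yemp y (θ q)).symm)
  have h2 : uni b X' (Finsupp.lsingle ∅ ∘ₗ θ) = mp k ι θ := by
    refine Finsupp.lhom_ext fun I q => ?_
    change uni b X' _ (sn I q) = mp k ι θ (sn I q)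
    rw [mp_sn]
    induction I using Finset.induction_on_min with
    | empty => rw [uni_empty]; rfl
    | insert j I hj ih => rw [uni_ins b X' _ hj, ih, P'.pre.gen j I _ hj]
  rwa [h2] at h1

/-- the parity operator -/
theorem IndM.exists_par [Fintype ι] (P : IndM S b ρ X Y) (hk : (2:k) ≠ 0) :
    ∃ σ : PP ι Q →ₗ[k] PP ι Q, (∀ x p, σ (X x p) = -X x (σ p)) ∧ (∀ y p, σ (Y y p) = Y y (σ p)) ∧
      (∀ p, σ (σ p) = p) ∧ (∀ q, σ (sn ∅ q) = sn ∅ q) ∧ ∀ p, σ p ∅ = p ∅ := by
  have h1 := P.pre.uni_map hk (XM := -X) (YM := Y) (fun x z m => by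
    simp only [LinearMap.neg_apply, map_neg, neg_neg]; exact P.XX x z m) (fun y x m => by
    simp only [LinearMap.neg_apply, map_neg]; rw [P.YX]; abel) (φ := Finsupp.lsingle ∅) (fun y q => (P.pre.Yemp y q).symm)
  refine ⟨uni b (-X) (Finsupp.lsingle ∅), fun x p => h1.1 x p, h1.2, fun p => ?_, fun q => ?_, fun p => ?_⟩
  · have h2 := P.pre.uni_ext (M := PP ι Q) (XM := X) (φ := uni b (-X) (Finsupp.lsingle ∅) ∘ₗ
      uni b (-X) (Finsupp.lsingle ∅)) (ψ := LinearMap.id) (fun j p => by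
        simp only [LinearMap.comp_apply, h1.1, LinearMap.neg_apply, map_neg, neg_neg]) (fun j p => rfl) (fun q => by
        rw [LinearMap.comp_apply, uni_empty]
        exact uni_empty _ _ _ _)
    exact LinearMap.congr_fun h2 p
  · rw [uni_empty]; rfl
  · have h3 : (Finsupp.lapply ∅ : PP ι Q →ₗ[k] Q) ∘ₗ uni b (-X) (Finsupp.lsingle ∅) = Finsupp.lapply ∅ := by
      refine Finsupp.lhom_ext fun I q => ?_
      simp only [LinearMap.comp_apply, Finsupp.lapply_apply]
      change uni b (-X) _ (sn I q) ∅ = sn I q ∅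
      have h4 : ∀ I : Finset ι, ∃ c : k, (I = ∅ → c = 1) ∧
          uni b (-X) (Finsupp.lsingle ∅) (sn I q) = c • sn I q := by
        intro I
        induction I using Finset.induction_on_min with
        | empty => exact ⟨1, fun _ => rfl, by rw [uni_empty, one_smul]; rfl⟩
        | insert j I hj ih =>
          obtain ⟨c, -, hc⟩ := ih
          refine ⟨-c, fun h => absurd h (Finset.insert_ne_empty _ _), ?_⟩
          rw [uni_ins b (-X) _ hj, hc, map_smul, LinearMap.neg_apply, LinearMap.neg_apply, P.pre.gen j I q hj]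
          module
      obtain ⟨c, hc1, hc2⟩ := h4 I
      rw [hc2]
      by_cases hI : I = ∅
      · rw [hc1 hI, one_smul]
      · rw [Finsupp.smul_apply, Finsupp.single_eq_of_ne (Ne.symm hI), smul_zero]
    exact LinearMap.congr_fun h3 p

/-- invariant functionals -/
theorem PreInd.inv_fun [Fintype ι] (P : PreInd S b ρ X Y) {W : Type} [AddCommGroup W] [Module k W] {f : Q →ₗ[k] W}
    (hf : ∀ y q, f (ρ y q) = 0) : (∀ x p, f (X x p ∅) = 0) ∧ ∀ y p, f (Y y p ∅) = 0 := by
  have key : ∀ n : ℕ, (∀ (j : ι) (p : PP ι Q), p ∈ Lt k ι Q n → f (X (b j) p ∅) = 0) ∧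
      (∀ (y : g) (p : PP ι Q), p ∈ Lt k ι Q n → f (Y y p ∅) = 0) := by
    intro n
    induction n with
    | zero =>
      refine ⟨fun j p hp => ?_, fun y p hp => ?_⟩ <;>
      · rw [Lt_zero hp]; simp
    | succ n ih =>
      obtain ⟨ih1, ih2⟩ := ih
      have ih1' : ∀ (x : V) (p : PP ι Q), p ∈ Lt k ι Q n → f (X x p ∅) = 0 := by
        intro x p hp
        refine bas_ind b (C := fun x => f (X x p ∅) = 0) (fun j => ih1 j p hp)
          (by simp) (fun x y hx hy => ?_) (fun c x hx => ?_) x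
        · simp only [map_add, LinearMap.add_apply, Finsupp.add_apply, hx, hy, add_zero]
        · simp only [map_smul, LinearMap.smul_apply, Finsupp.smul_apply, hx, smul_zero]
      refine ⟨fun j => ?_, fun y p hp => ?_⟩
      · induction j using WellFoundedLT.induction with
        | ind j ihj =>
        intro p hp
        have hh := Lt_ext (k := k) (φ := f ∘ₗ Finsupp.lapply ∅ ∘ₗ X (b j)) (ψ := 0)
          (fun I q hI => ?_) hp
        · exact hh
        simp only [LinearMap.comp_apply, LinearMap.zero_apply, Finsupp.lapply_apply]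
        rcases fs_cases2 j I with hJ | ⟨i, J, hJ, rfl, hc, hij⟩
        · rw [P.gen j I q hJ, Finsupp.single_eq_of_ne (Finset.insert_ne_empty _ _).symm, map_zero]
        · have hv : sn J q ∈ Lt k ι Q n := sn_mem (by omega) q
          rcases hij.eq_or_lt with rfl | hij
          · rw [P.sq i J q hJ, Finsupp.smul_apply, map_smul, ih2 _ _ hv, smul_zero]
          · rw [P.sw i j J q hJ hij, Finsupp.sub_apply, map_sub, ih2 _ _ hv, ihj i hij _ (P.degXb n j hv), sub_zero]
      · have hh := Lt_ext (k := k) (φ := f ∘ₗ Finsupp.lapply ∅ ∘ₗ Y y) (ψ := 0)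
          (fun I q hI => ?_) hp
        · exact hh
        simp only [LinearMap.comp_apply, LinearMap.zero_apply, Finsupp.lapply_apply]
        rcases fs_cases I with rfl | ⟨i, J, hJ, rfl, hc⟩
        · rw [P.Yemp, Finsupp.single_eq_same, hf]
        · have hv : sn J q ∈ Lt k ι Q n := sn_mem (by omega) q
          rw [P.Yins i J y q hJ, Finsupp.add_apply, map_add, ih1' _ _ hv, ih1 i _ (P.degY n y _ hv), add_zero]
  obtain ⟨k1, k2⟩ := key (Fintype.card ι + 1)
  refine ⟨fun x p => ?_, fun y p => k2 y p (Lt_top p (Nat.lt_succ_self _))⟩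
  refine bas_ind b (C := fun x => f (X x p ∅) = 0)
    (fun j => k1 j p (Lt_top p (Nat.lt_succ_self _))) (by simp) (fun x y hx hy => ?_) (fun c x hx => ?_) x
  · simp only [map_add, LinearMap.add_apply, Finsupp.add_apply, hx, hy, add_zero]
  · simp only [map_smul, LinearMap.smul_apply, Finsupp.smul_apply, hx, smul_zero]

end Pool.Agent.V8H22.SLA
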