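import Pool.Agent.V8H22.SLA.B1

/-!
# The divided power module and the differential
-/

set_option autoImplicit false
set_option maxHeartbeats 1000000
set_option linter.unusedSectionVars false

namespace Pool.Agent.V8H22.SLA

variable {k g V ι : Type} [Field k] [LieRing g] [LieAlgebra k g] [AddCommGroup V] [Module k V]
  [LieRingModule g V] [LieModule k g V] [LinearOrder ι] [Fintype ι]

/-- polynomial functions on the odd part -/
abbrev PolA (k ι : Type) [Field k] := MvPolynomial ι k

/-- the dual of the space of polynomials -/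
abbrev Gm (k ι : Type) [Field k] := MvPolynomial ι k →ₗ[k] k

/-- linear forms as polynomials -/
noncomputable def lin (b : Module.Basis ι k V) : (V →ₗ[k] k) →ₗ[k] MvPolynomial ι k where
  toFun l := ∑ r, l (b r) • MvPolynomial.X r
  map_add' l m := by simp [add_smul, Finset.sum_add_distrib]
  map_smul' c l := by simp [Finset.smul_sum, smul_smul]

lemma lin_apply (b : Module.Basis ι k V) (l : V →ₗ[k] k) :
    lin b l = ∑ r, l (b r) • (MvPolynomial.X r : MvPolynomial ι k) := rfl

/-- evaluation of polynomials at a vector -/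
noncomputable def evv (b : Module.Basis ι k V) (v : V) : MvPolynomial ι k →ₐ[k] k :=
  MvPolynomial.aeval fun i => b.coord i v

lemma evv_X (b : Module.Basis ι k V) (v : V) (i : ι) : evv b v (MvPolynomial.X i) = b.coord i v := by
  unfold evv; rw [MvPolynomial.aeval_X]

lemma sum_coord (b : Module.Basis ι k V) (v : V) : ∑ r, b.coord r v • b r = v := by
  simp [Module.Basis.sum_repr]

lemma evv_lin (b : Module.Basis ι k V) (v : V) (l : V →ₗ[k] k) : evv b v (lin b l) = l v := by
  rw [lin_apply, map_sum]
  conv_rhs => rw [← sum_coord b v, map_sum]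
  refine Finset.sum_congr rfl fun r _ => ?_
  rw [map_smul, map_smul, evv_X, smul_eq_mul, smul_eq_mul, mul_comm]

/-- the action of the even part on polynomials -/
noncomputable def del (b : Module.Basis ι k V) : g →ₗ[k] Derivation k (MvPolynomial ι k) (MvPolynomial ι k) where
  toFun y := MvPolynomial.mkDerivation k fun s => lin b (-(b.coord s ∘ₗ LieModule.toEnd k g V y))
  map_add' y z := by
    refine MvPolynomial.derivation_ext fun s => ?_
    rw [Derivation.add_apply, MvPolynomial.mkDerivation_X, MvPolynomial.mkDerivation_X, MvPolynomial.mkDerivation_X,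
      map_add, LinearMap.comp_add, neg_add, map_add]
  map_smul' c y := by
    refine MvPolynomial.derivation_ext fun s => ?_
    have h : -(b.coord s ∘ₗ (LieModule.toEnd k g V (c • y) : V →ₗ[k] V)) =
        c • -(b.coord s ∘ₗ (LieModule.toEnd k g V y : V →ₗ[k] V)) := by
      refine LinearMap.ext fun v => ?_
      simp
    rw [Derivation.smul_apply, MvPolynomial.mkDerivation_X, MvPolynomial.mkDerivation_X, h, map_smul]
    rfl

lemma del_X (b : Module.Basis ι k V) (y : g) (s : ι) :
    del b y (MvPolynomial.X s) = lin b (-(b.coord s ∘ₗ LieModule.toEnd k g V y)) :=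
  MvPolynomial.mkDerivation_X k _ s

lemma del_lin (b : Module.Basis ι k V) (y : g) (l : V →ₗ[k] k) :
    del b y (lin b l) = lin b (-(l ∘ₗ LieModule.toEnd k g V y)) := by
  have h1 : l = ∑ r, l (b r) • b.coord r := by
    refine b.ext fun j => ?_
    rw [LinearMap.sum_apply, Finset.sum_eq_single j]
    · simp
    · intro i _ hij
      simp [Finsupp.single_apply, Ne.symm hij]
    · simp
  conv_rhs => rw [h1]
  rw [lin_apply, map_sum]
  have h2 : -((∑ r, l (b r) • b.coord r) ∘ₗ (LieModule.toEnd k g V y : V →ₗ[k] V)) =
      ∑ r, l (b r) • (-(b.coord r ∘ₗ (LieModule.toEnd k g V y : V →ₗ[k] V))) := by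
    refine LinearMap.ext fun v => ?_
    rw [LinearMap.neg_apply, LinearMap.comp_apply, LinearMap.sum_apply, LinearMap.sum_apply,
      ← Finset.sum_neg_distrib]
    refine Finset.sum_congr rfl fun r _ => ?_
    rw [LinearMap.smul_apply, LinearMap.smul_apply, LinearMap.neg_apply, LinearMap.comp_apply, smul_neg]
  rw [h2, map_sum]
  refine Finset.sum_congr rfl fun r _ => ?_
  rw [Derivation.map_smul, map_smul, del_X]

lemma del_lie (b : Module.Basis ι k V) (y z : g) (f : MvPolynomial ι k) :
    del b ⁅y, z⁆ f = del b y (del b z f) - del b z (del b y f) := by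
  have h : del b ⁅y, z⁆ = ⁅del b y, del b z⁆ := by
    refine MvPolynomial.derivation_ext fun s => ?_
    rw [Derivation.commutator_apply, del_X, del_X, del_X, del_lin, del_lin, ← map_sub]
    congr 1
    ext v
    simp only [LinearMap.neg_apply, LinearMap.comp_apply, LinearMap.sub_apply, LieModule.toEnd_apply_apply, lie_lie,
      map_sub, LinearMap.neg_comp, map_neg]
    ring
  rw [h, Derivation.commutator_apply]

/-- the action of the even part on the dual -/
noncomputable def rG (b : Module.Basis ι k V) : g →ₗ[k] Module.End k (Gm k ι) where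
  toFun y :=
    { toFun := fun γ => -(γ ∘ₗ (del b y : MvPolynomial ι k →ₗ[k] MvPolynomial ι k))
      map_add' := fun γ γ' => LinearMap.ext fun f => neg_add (γ (del b y f)) (γ' (del b y f))
      map_smul' := fun c γ => LinearMap.ext fun f => (smul_neg c (γ (del b y f))).symm }
  map_add' y z := LinearMap.ext fun γ => LinearMap.ext fun f => by
    change -γ (del b (y + z) f) = -γ (del b y f) + -γ (del b z f)
    rw [map_add, Derivation.add_apply, map_add, neg_add]
  map_smul' c y := LinearMap.ext fun γ => LinearMap.ext fun f => by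
    change -γ (del b (c • y) f) = c • -γ (del b y f)
    rw [map_smul, Derivation.smul_apply, map_smul, smul_neg]

lemma rG_apply (b : Module.Basis ι k V) (y : g) (γ : Gm k ι) (f : MvPolynomial ι k) :
    rG b y γ f = -γ (del b y f) := rfl

lemma rG_lie (b : Module.Basis ι k V) (y z : g) (γ : Gm k ι) :
    rG b ⁅y, z⁆ γ = rG b y (rG b z γ) - rG b z (rG b y γ) := by
  refine LinearMap.ext fun f => ?_
  rw [LinearMap.sub_apply, rG_apply, rG_apply, rG_apply, rG_apply, rG_apply, del_lie, map_sub]
  ring

/-- contraction -/
noncomputable def Ct (k : Type) [Field k] {ι : Type} (i : ι) : Gm k ι →ₗ[k] Gm k ι where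
  toFun γ := γ ∘ₗ LinearMap.mulLeft k (MvPolynomial.X i)
  map_add' _ _ := rfl
  map_smul' _ _ := rfl

lemma Ct_apply (i : ι) (γ : Gm k ι) (f : MvPolynomial ι k) : Ct k i γ f = γ (MvPolynomial.X i * f) := rfl

lemma Ct_rG (b : Module.Basis ι k V) (i : ι) (y : g) (γ : Gm k ι) :
    Ct k i (rG b y γ) = rG b y (Ct k i γ) + ∑ r, b.coord i ⁅y, b r⁆ • Ct k r γ := by
  refine LinearMap.ext fun f => ?_
  rw [LinearMap.add_apply, Ct_apply, rG_apply, rG_apply, Ct_apply, Derivation.leibniz, del_X, lin_apply, map_add,
    LinearMap.sum_apply, smul_eq_mul, smul_eq_mul, neg_add, Finset.mul_sum, map_sum]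
  congr 1
  rw [← Finset.sum_neg_distrib]
  refine Finset.sum_congr rfl fun r _ => ?_
  rw [mul_smul_comm, map_smul, LinearMap.smul_apply, Ct_apply, mul_comm]
  simp

lemma dsum {α : Type} (s : Finset α) (D : α → Derivation k (MvPolynomial ι k) (MvPolynomial ι k))
    (f : MvPolynomial ι k) : (∑ i ∈ s, D i) f = ∑ i ∈ s, D i f := by
  classical
  induction s using Finset.induction_on with
  | empty => simp
  | insert a s ha ih => rw [Finset.sum_insert ha, Finset.sum_insert ha, Derivation.add_apply, ih]

/-- the key identity: the square of the differential -/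
lemma sq_id [Infinite k] (S : SLie k g V) (b : Module.Basis ι k V) (f : MvPolynomial ι k) :
    ∑ i, ∑ j, (MvPolynomial.X i * MvPolynomial.X j) * del b (S.br (b i) (b j)) f = 0 := by
  have h : (∑ i, ∑ j, ((MvPolynomial.X i * MvPolynomial.X j : MvPolynomial ι k)) • del b (S.br (b i) (b j)) :
      Derivation k (MvPolynomial ι k) (MvPolynomial ι k)) = 0 := by
    refine MvPolynomial.derivation_ext fun s => ?_
    refine MvPolynomial.funext fun w => ?_
    have hv : ∃ v : V, ∀ i, b.coord i v = w i := ⟨∑ r, w r • b r, fun i => by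
      rw [map_sum, Finset.sum_eq_single i]
      · simp
      · intro j _ hij
        simp [Finsupp.single_apply, hij]
      · simp⟩
    obtain ⟨v, hv⟩ := hv
    have hev : ∀ f : MvPolynomial ι k, MvPolynomial.eval w f = evv b v f := by
      intro f
      unfold evv
      simp only [hv]
      rfl
    rw [hev]
    have h1 : (∑ i, ∑ j, ((MvPolynomial.X i * MvPolynomial.X j : MvPolynomial ι k)) • del b (S.br (b i) (b j)) :
      Derivation k (MvPolynomial ι k) (MvPolynomial ι k)) (MvPolynomial.X s) = ∑ i, ∑ j,
        ((MvPolynomial.X i * MvPolynomial.X j : MvPolynomial ι k)) * del b (S.br (b i) (b j)) (MvPolynomial.X s) := by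
      rw [dsum]
      refine Finset.sum_congr rfl fun i _ => ?_
      rw [dsum]
      rfl
    rw [h1, Derivation.zero_apply, map_zero, map_sum]
    have h2 : S.br v v = ∑ i, ∑ j, (b.coord i v * b.coord j v) • S.br (b i) (b j) := by
      rw [show S.br v v = S.br (∑ r, b.coord r v • b r) (∑ r, b.coord r v • b r) by rw [sum_coord],
        map_sum S.br, LinearMap.sum_apply]
      refine Finset.sum_congr rfl fun i _ => ?_
      rw [map_sum]
      refine Finset.sum_congr rfl fun j _ => ?_
      rw [map_smul, map_smul, LinearMap.smul_apply, smul_smul, mul_comm]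
    have h3 : b.coord s ⁅S.br v v, v⁆ = 0 := by rw [S.jac, map_zero]
    have h4 : b.coord s ⁅S.br v v, v⁆ = ∑ i, ∑ j, (b.coord i v * b.coord j v) * b.coord s ⁅S.br (b i) (b j), v⁆ := by
      rw [h2]
      let L : g →ₗ[k] k :=
        { toFun := fun u => b.coord s ⁅u, v⁆
          map_add' := fun u w => by rw [add_lie, map_add]
          map_smul' := fun c u => by rw [smul_lie, map_smul]; rfl }
      have : ∀ u : g, b.coord s ⁅u, v⁆ = L u := fun u => rfl
      rw [this, map_sum]
      refine Finset.sum_congr rfl fun i _ => ?_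
      rw [map_sum]
      refine Finset.sum_congr rfl fun j _ => ?_
      rw [map_smul, this, smul_eq_mul]
    have h5 : ∀ i, evv b v (∑ j, (MvPolynomial.X i * MvPolynomial.X j : MvPolynomial ι k) *
        del b (S.br (b i) (b j)) (MvPolynomial.X s)) =
        -∑ j, (b.coord i v * b.coord j v) * b.coord s ⁅S.br (b i) (b j), v⁆ := by
      intro i
      rw [map_sum, ← Finset.sum_neg_distrib]
      refine Finset.sum_congr rfl fun j _ => ?_
      rw [map_mul, map_mul, evv_X, evv_X, del_X, evv_lin, LinearMap.neg_apply, LinearMap.comp_apply,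
        LieModule.toEnd_apply_apply, mul_neg]
    rw [Finset.sum_congr rfl fun i _ => h5 i, Finset.sum_neg_distrib, ← h4, h3, neg_zero]
  have h6 := congrArg (fun d : Derivation k (MvPolynomial ι k) (MvPolynomial ι k) => d f) h
  simp only [dsum] at h6
  simpa using h6

end Pool.Agent.V8H22.SLA
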