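import Pool.Agent.V8H22.SLA.B2

/-!
# The differential and the grading
-/

set_option autoImplicit false
set_option maxHeartbeats 1000000
set_option linter.unusedSectionVars false

namespace Pool.Agent.V8H22.SLA

variable {k g V ι : Type} [Field k] [LieRing g] [LieAlgebra k g] [AddCommGroup V] [Module k V]
  [LieRingModule g V] [LieModule k g V] [LinearOrder ι] [Fintype ι]

/-- the generating map of the differential -/
noncomputable def phi (b : Module.Basis ι k V) (X : V →ₗ[k] PP ι (Gm k ι) →ₗ[k] PP ι (Gm k ι)) :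
    Gm k ι →ₗ[k] PP ι (Gm k ι) := ∑ i, X (b i) ∘ₗ Finsupp.lsingle ∅ ∘ₗ Ct k i

/-- the differential -/
noncomputable def Df (b : Module.Basis ι k V) (X : V →ₗ[k] PP ι (Gm k ι) →ₗ[k] PP ι (Gm k ι)) :
    PP ι (Gm k ι) →ₗ[k] PP ι (Gm k ι) := uni b X (phi b X)

variable {S : SLie k g V} {b : Module.Basis ι k V}
  {X : V →ₗ[k] PP ι (Gm k ι) →ₗ[k] PP ι (Gm k ι)} {Y : g →ₗ[k] PP ι (Gm k ι) →ₗ[k] PP ι (Gm k ι)}

lemma phi_apply (γ : Gm k ι) : phi b X γ = ∑ i, X (b i) (sn ∅ (Ct k i γ)) := by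
  unfold phi
  rw [LinearMap.sum_apply]
  rfl

lemma Df_sn (γ : Gm k ι) : Df b X (sn ∅ γ) = ∑ i, X (b i) (sn ∅ (Ct k i γ)) := by
  unfold Df
  rw [uni_empty, phi_apply]

omit [Fintype ι] in
lemma sn_add {Q : Type} [AddCommGroup Q] (I : Finset ι) (q r : Q) : sn I (q + r) = sn I q + sn I r :=
  Finsupp.single_add _ _ _

omit [Fintype ι] in
lemma sn_sum {Q α : Type} [AddCommGroup Q] (I : Finset ι) (s : Finset α) (q : α → Q) :
    sn I (∑ i ∈ s, q i) = ∑ i ∈ s, sn I (q i) :=
  map_sum (Finsupp.singleAddHom I) q s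

omit [Fintype ι] in
lemma sn_smul {Q : Type} [AddCommGroup Q] [Module k Q] (I : Finset ι) (c : k) (q : Q) : sn I (c • q) = c • sn I q :=
  (Finsupp.smul_single _ _ _).symm

lemma phi_equiv (P : IndM S b (rG b) X Y) (y : g) (γ : Gm k ι) :
    phi b X (rG b y γ) = Y y (phi b X γ) := by
  rw [phi_apply, phi_apply, map_sum]
  have h1 : ∀ i, Y y (X (b i) (sn ∅ (Ct k i γ))) = X (b i) (sn ∅ (rG b y (Ct k i γ))) +
      ∑ r, b.coord r ⁅y, b i⁆ • X (b r) (sn ∅ (Ct k i γ)) := by
    intro i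
    rw [P.YX, P.pre.Yemp]
    congr 1
    conv_lhs => rw [← sum_coord b ⁅y, b i⁆]
    rw [map_sum, LinearMap.sum_apply]
    refine Finset.sum_congr rfl fun r _ => ?_
    rw [map_smul, LinearMap.smul_apply]
  have h2 : ∀ i, X (b i) (sn ∅ (Ct k i (rG b y γ))) = X (b i) (sn ∅ (rG b y (Ct k i γ))) +
      ∑ r, b.coord i ⁅y, b r⁆ • X (b i) (sn ∅ (Ct k r γ)) := by
    intro i
    rw [Ct_rG, sn_add, map_add, sn_sum, map_sum]
    congr 1
    refine Finset.sum_congr rfl fun r _ => ?_
    rw [sn_smul, map_smul]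
  rw [Finset.sum_congr rfl fun i _ => h1 i, Finset.sum_congr rfl fun i _ => h2 i, Finset.sum_add_distrib,
    Finset.sum_add_distrib]
  congr 1
  exact Finset.sum_comm

lemma Df_X (P : IndM S b (rG b) X Y) (hk : (2:k) ≠ 0) (v : V) (p : PP ι (Gm k ι)) :
    Df b X (X v p) = X v (Df b X p) :=
  (P.pre.uni_map hk P.XX P.YX (φ := phi b X) (phi_equiv P)).1 v p

lemma Df_Y (P : IndM S b (rG b) X Y) (hk : (2:k) ≠ 0) (y : g) (p : PP ι (Gm k ι)) :
    Df b X (Y y p) = Y y (Df b X p) :=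
  (P.pre.uni_map hk P.XX P.YX (φ := phi b X) (phi_equiv P)).2 y p

lemma Ct_Ct (i j : ι) (γ : Gm k ι) (f : MvPolynomial ι k) :
    Ct k j (Ct k i γ) f = γ (MvPolynomial.X i * MvPolynomial.X j * f) := by
  rw [Ct_apply, Ct_apply, mul_assoc]

lemma Df_Df [Infinite k] (P : IndM S b (rG b) X Y) (hk : (2:k) ≠ 0) (p : PP ι (Gm k ι)) :
    Df b X (Df b X p) = 0 := by
  have h1 : ∀ γ : Gm k ι, Df b X (Df b X (sn ∅ γ)) = 0 := by
    intro γ
    have e1 : Df b X (Df b X (sn ∅ γ)) = ∑ i, ∑ j, X (b i) (X (b j) (sn ∅ (Ct k j (Ct k i γ)))) := by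
      rw [Df_sn, map_sum]
      refine Finset.sum_congr rfl fun i _ => ?_
      rw [Df_X P hk, Df_sn, map_sum]
    have e2 : (2:k) • Df b X (Df b X (sn ∅ γ)) = ∑ i, ∑ j, Y (S.br (b i) (b j)) (sn ∅ (Ct k j (Ct k i γ))) := by
      have e1' := e1.trans Finset.sum_comm
      rw [two_smul]
      nth_rw 1 [e1]
      rw [e1']
      rw [← Finset.sum_add_distrib]
      refine Finset.sum_congr rfl fun i _ => ?_
      rw [← Finset.sum_add_distrib]
      refine Finset.sum_congr rfl fun j _ => ?_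
      have e3 : Ct k i (Ct k j γ) = Ct k j (Ct k i γ) := by
        refine LinearMap.ext fun f => ?_
        rw [Ct_Ct, Ct_Ct, mul_comm (MvPolynomial.X j)]
      rw [e3, ← P.XX]
    have e4 : ∑ i, ∑ j, Y (S.br (b i) (b j)) (sn ∅ (Ct k j (Ct k i γ))) =
        sn ∅ (∑ i, ∑ j, rG b (S.br (b i) (b j)) (Ct k j (Ct k i γ))) := by
      rw [sn_sum]
      refine Finset.sum_congr rfl fun i _ => ?_
      rw [sn_sum]
      refine Finset.sum_congr rfl fun j _ => ?_
      rw [P.pre.Yemp]
    have e5 : ∑ i, ∑ j, rG b (S.br (b i) (b j)) (Ct k j (Ct k i γ)) = 0 := by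
      refine LinearMap.ext fun f => ?_
      have e6 := congrArg γ (sq_id S b f)
      rw [map_zero, map_sum] at e6
      rw [LinearMap.sum_apply, LinearMap.zero_apply, ← neg_zero, ← e6, ← Finset.sum_neg_distrib]
      refine Finset.sum_congr rfl fun i _ => ?_
      rw [LinearMap.sum_apply, map_sum, ← Finset.sum_neg_distrib]
      refine Finset.sum_congr rfl fun j _ => ?_
      rw [rG_apply, Ct_Ct]
    rw [e4, e5] at e2
    have e7 : sn ∅ (0 : Gm k ι) = (0 : PP ι (Gm k ι)) := Finsupp.single_zero _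
    rw [e7] at e2
    exact (smul_eq_zero.1 e2).resolve_left hk
  have h2 := P.pre.uni_ext (XM := X) (φ := Df b X ∘ₗ Df b X) (ψ := 0) (fun j p => by
    simp only [LinearMap.comp_apply]
    rw [Df_X P hk, Df_X P hk]) (fun j p => by simp) (fun γ => by
    simp only [LinearMap.comp_apply, LinearMap.zero_apply]
    exact h1 γ)
  exact LinearMap.congr_fun h2 p

lemma Df_sig (P : IndM S b (rG b) X Y) (hk : (2:k) ≠ 0) {σ : PP ι (Gm k ι) →ₗ[k] PP ι (Gm k ι)}
    (h1 : ∀ x p, σ (X x p) = -X x (σ p)) (h2 : ∀ q, σ (sn ∅ q) = sn ∅ q) (p : PP ι (Gm k ι)) :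
    σ (Df b X p) = -Df b X (σ p) := by
  have h3 := P.pre.uni_ext (XM := -X) (φ := σ ∘ₗ Df b X) (ψ := -(Df b X ∘ₗ σ)) (fun j p => by
    simp only [LinearMap.comp_apply, LinearMap.neg_apply]
    rw [Df_X P hk, h1]) (fun j p => by
    simp only [LinearMap.comp_apply, LinearMap.neg_apply, map_neg]
    rw [h1, map_neg, Df_X P hk]) (fun γ => by
    simp only [LinearMap.comp_apply, LinearMap.neg_apply]
    rw [h2, Df_sn, map_sum, ← Finset.sum_neg_distrib]
    refine Finset.sum_congr rfl fun i _ => ?_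
    rw [h1, h2])
  exact LinearMap.congr_fun h3 p

/-! ### the grading -/

omit [LinearOrder ι] [Fintype ι] in
/-- an operator shifting degrees -/
lemma hc_shift {T : MvPolynomial ι k →ₗ[k] MvPolynomial ι k} {a : ℕ}
    (hT : ∀ (s : ι →₀ ℕ) (c : k), (T (MvPolynomial.monomial s c)).IsHomogeneous (s.degree + a)) (m : ℕ)
    (f : MvPolynomial ι k) : MvPolynomial.homogeneousComponent m (T f) =
      if a ≤ m then T (MvPolynomial.homogeneousComponent (m - a) f) else 0 := by
  induction f using MvPolynomial.induction_on' with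
  | monomial s c =>
    have e1 : MvPolynomial.homogeneousComponent m (T (MvPolynomial.monomial s c)) =
        if m = s.degree + a then T (MvPolynomial.monomial s c) else 0 :=
      MvPolynomial.homogeneousComponent_of_mem (hT s c)
    have e2 : MvPolynomial.homogeneousComponent (m - a) (MvPolynomial.monomial s c) =
        if m - a = s.degree then MvPolynomial.monomial s c else 0 :=
      MvPolynomial.homogeneousComponent_of_mem (MvPolynomial.isHomogeneous_monomial c rfl)
    rw [e1, e2]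
    split_ifs with h1 h2 h3 h4 h5 <;> first | rfl | omega | simp
  | add p q hp hq =>
    rw [map_add, map_add, map_add, hp, hq]
    split_ifs
    · rw [map_add]
    · rw [add_zero]

lemma hc_X (i : ι) (m : ℕ) (f : MvPolynomial ι k) :
    MvPolynomial.homogeneousComponent (m + 1) (MvPolynomial.X i * f) =
      MvPolynomial.X i * MvPolynomial.homogeneousComponent m f := by
  have := hc_shift (T := LinearMap.mulLeft k (MvPolynomial.X i : MvPolynomial ι k)) (a := 1) (fun s c => by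
    rw [LinearMap.mulLeft_apply, add_comm]
    exact (MvPolynomial.isHomogeneous_X k i).mul (MvPolynomial.isHomogeneous_monomial c rfl)) (m + 1) f
  rw [if_pos (by omega)] at this
  exact this

lemma hc_X0 (i : ι) (f : MvPolynomial ι k) :
    MvPolynomial.homogeneousComponent 0 (MvPolynomial.X i * f) = 0 := by
  have := hc_shift (T := LinearMap.mulLeft k (MvPolynomial.X i : MvPolynomial ι k)) (a := 1) (fun s c => by
    rw [LinearMap.mulLeft_apply, add_comm]
    exact (MvPolynomial.isHomogeneous_X k i).mul (MvPolynomial.isHomogeneous_monomial c rfl)) 0 f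
  rw [if_neg (by omega)] at this
  exact this

lemma lin_hom (b : Module.Basis ι k V) (l : V →ₗ[k] k) : (lin b l).IsHomogeneous 1 := by
  rw [lin_apply]
  refine MvPolynomial.IsHomogeneous.sum _ _ _ fun r _ => ?_
  exact (MvPolynomial.homogeneousSubmodule ι k 1).smul_mem _ (MvPolynomial.isHomogeneous_X k r)

lemma hc_del (b : Module.Basis ι k V) (y : g) (m : ℕ) (f : MvPolynomial ι k) :
    MvPolynomial.homogeneousComponent m (del b y f) = del b y (MvPolynomial.homogeneousComponent m f) := by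
  have := hc_shift (T := (del b y : MvPolynomial ι k →ₗ[k] MvPolynomial ι k)) (a := 0) (fun s c => by
    change (del b y (MvPolynomial.monomial s c)).IsHomogeneous _
    have e1 : del b y (MvPolynomial.monomial s c) = c • s.sum fun i l =>
        MvPolynomial.monomial (s - Finsupp.single i 1) (l : k) • lin b (-(b.coord i ∘ₗ LieModule.toEnd k g V y)) :=
      MvPolynomial.mkDerivation_monomial k _ s c
    rw [e1]
    refine (MvPolynomial.homogeneousSubmodule ι k _).smul_mem _ ?_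
    refine (MvPolynomial.homogeneousSubmodule ι k _).sum_mem fun i hi => ?_
    rw [MvPolynomial.mem_homogeneousSubmodule]
    have hdeg : (s - Finsupp.single i 1).degree + 1 = s.degree + 0 := by
      have h0 : s i ≠ 0 := Finsupp.mem_support_iff.1 hi
      have h1 : (s - Finsupp.single i 1) + Finsupp.single i 1 = s := by
        refine tsub_add_cancel_of_le ?_
        rw [Finsupp.single_le_iff]
        omega
      conv_rhs => rw [← h1]
      rw [map_add, Finsupp.degree_single]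
    rw [← hdeg]
    exact (MvPolynomial.isHomogeneous_monomial _ rfl).mul (lin_hom b _)) m f
  rw [if_pos (Nat.zero_le _), Nat.sub_zero] at this
  exact this

/-- projection to a graded piece -/
noncomputable def prj (k ι : Type) [Field k] (n : ℕ) : Gm k ι →ₗ[k] Gm k ι where
  toFun γ := γ ∘ₗ MvPolynomial.homogeneousComponent n
  map_add' _ _ := rfl
  map_smul' _ _ := rfl

lemma prj_apply (n : ℕ) (γ : Gm k ι) (f : MvPolynomial ι k) :
    prj k ι n γ f = γ (MvPolynomial.homogeneousComponent n f) := rfl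

lemma prj_prj (n : ℕ) (γ : Gm k ι) : prj k ι n (prj k ι n γ) = prj k ι n γ := by
  refine LinearMap.ext fun f => ?_
  rw [prj_apply, prj_apply, prj_apply, MvPolynomial.homogeneousComponent_of_mem
    (MvPolynomial.homogeneousComponent_mem n f), if_pos rfl]

lemma prj_rG (b : Module.Basis ι k V) (n : ℕ) (y : g) (γ : Gm k ι) :
    prj k ι n (rG b y γ) = rG b y (prj k ι n γ) := by
  refine LinearMap.ext fun f => ?_
  rw [prj_apply, rG_apply, rG_apply, prj_apply, hc_del]

lemma Ct_prj (n : ℕ) (i : ι) (γ : Gm k ι) : Ct k i (prj k ι (n + 1) γ) = prj k ι n (Ct k i γ) := by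
  refine LinearMap.ext fun f => ?_
  rw [Ct_apply, prj_apply, prj_apply, Ct_apply, hc_X]

lemma Ct_prj0 (i : ι) (γ : Gm k ι) : Ct k i (prj k ι 0 γ) = 0 := by
  refine LinearMap.ext fun f => ?_
  rw [Ct_apply, prj_apply, hc_X0, map_zero, LinearMap.zero_apply]

/-- the projection on the induced module -/
noncomputable def pj (k ι : Type) [Field k] (n : ℕ) : PP ι (Gm k ι) →ₗ[k] PP ι (Gm k ι) := mp k ι (prj k ι n)

lemma pj_sn (n : ℕ) (I : Finset ι) (γ : Gm k ι) : pj k ι n (sn I γ) = sn I (prj k ι n γ) := mp_sn _ _ _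

lemma pj_pj (n : ℕ) (p : PP ι (Gm k ι)) : pj k ι n (pj k ι n p) = pj k ι n p := by
  refine Finsupp.ext fun I => ?_
  unfold pj
  rw [mp_apply, mp_apply, prj_prj]

lemma pj_X (P : IndM S b (rG b) X Y) (hk : (2:k) ≠ 0) (n : ℕ) (x : V) (p : PP ι (Gm k ι)) :
    pj k ι n (X x p) = X x (pj k ι n p) :=
  (P.mp_comm P hk (θ := prj k ι n) (prj_rG b n)).1 x p

lemma pj_Y (P : IndM S b (rG b) X Y) (hk : (2:k) ≠ 0) (n : ℕ) (y : g) (p : PP ι (Gm k ι)) :
    pj k ι n (Y y p) = Y y (pj k ι n p) :=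
  (P.mp_comm P hk (θ := prj k ι n) (prj_rG b n)).2 y p

lemma pj_sig (P : IndM S b (rG b) X Y) (hk : (2:k) ≠ 0) {σ : PP ι (Gm k ι) →ₗ[k] PP ι (Gm k ι)}
    (h1 : ∀ x p, σ (X x p) = -X x (σ p)) (h2 : ∀ q, σ (sn ∅ q) = sn ∅ q) (n : ℕ) (p : PP ι (Gm k ι)) :
    σ (pj k ι n p) = pj k ι n (σ p) := by
  have h3 := P.pre.uni_ext (XM := -X) (φ := σ ∘ₗ pj k ι n) (ψ := pj k ι n ∘ₗ σ) (fun j p => by
    simp only [LinearMap.comp_apply, LinearMap.neg_apply]
    rw [pj_X P hk, h1]) (fun j p => by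
    simp only [LinearMap.comp_apply, LinearMap.neg_apply]
    rw [h1, map_neg, pj_X P hk]) (fun γ => by
    simp only [LinearMap.comp_apply]
    rw [h2, pj_sn, h2])
  exact LinearMap.congr_fun h3 p

lemma Df_pj (P : IndM S b (rG b) X Y) (hk : (2:k) ≠ 0) (n : ℕ) (p : PP ι (Gm k ι)) :
    Df b X (pj k ι (n + 1) p) = pj k ι n (Df b X p) := by
  have h3 := P.pre.uni_ext (XM := X) (φ := Df b X ∘ₗ pj k ι (n + 1)) (ψ := pj k ι n ∘ₗ Df b X) (fun j p => by
    simp only [LinearMap.comp_apply]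
    rw [pj_X P hk, Df_X P hk]) (fun j p => by
    simp only [LinearMap.comp_apply]
    rw [Df_X P hk, pj_X P hk]) (fun γ => by
    simp only [LinearMap.comp_apply]
    rw [pj_sn, Df_sn, Df_sn, map_sum]
    refine Finset.sum_congr rfl fun i _ => ?_
    rw [Ct_prj, pj_X P hk, pj_sn])
  exact LinearMap.congr_fun h3 p

lemma Df_pj0 (P : IndM S b (rG b) X Y) (hk : (2:k) ≠ 0) (p : PP ι (Gm k ι)) :
    Df b X (pj k ι 0 p) = 0 := by
  have h3 := P.pre.uni_ext (XM := X) (φ := Df b X ∘ₗ pj k ι 0) (ψ := 0) (fun j p => by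
    simp only [LinearMap.comp_apply]
    rw [pj_X P hk, Df_X P hk]) (fun j p => by simp) (fun γ => by
    simp only [LinearMap.comp_apply, LinearMap.zero_apply]
    rw [pj_sn, Df_sn]
    refine Finset.sum_eq_zero fun i _ => ?_
    rw [Ct_prj0]
    have e7 : sn ∅ (0 : Gm k ι) = (0 : PP ι (Gm k ι)) := Finsupp.single_zero _
    rw [e7, map_zero])
  exact LinearMap.congr_fun h3 p

end Pool.Agent.V8H22.SLA
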