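import Pool.Agent.V8H22.SLA.B3

/-!
# Exactness of the differential
-/

set_option autoImplicit false
set_option maxHeartbeats 1000000
set_option linter.unusedSectionVars false

namespace Pool.Agent.V8H22.SLA

variable {k g V ι : Type} [Field k] [LieRing g] [LieAlgebra k g] [AddCommGroup V] [Module k V]
  [LieRingModule g V] [LieModule k g V] [LinearOrder ι] [Fintype ι]

open Classical in
/-- the basic homotopy on polynomials -/
noncomputable def qj (k : Type) [Field k] {ι : Type} [LinearOrder ι] (j : ι) :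
    MvPolynomial ι k →ₗ[k] MvPolynomial ι k :=
  (MvPolynomial.basisMonomials ι k).constr k fun β =>
    if β j ≠ 0 ∧ ∀ i < j, β i = 0 then MvPolynomial.monomial (β - Finsupp.single j 1) 1 else 0

lemma qj_pos {j : ι} {β : ι →₀ ℕ} (h : β j ≠ 0 ∧ ∀ i < j, β i = 0) :
    qj k j (MvPolynomial.monomial β 1) = MvPolynomial.monomial (β - Finsupp.single j 1) 1 := by
  unfold qj
  have h1 := fun f : (ι →₀ ℕ) → MvPolynomial ι k => (MvPolynomial.basisMonomials ι k).constr_basis k f β
  simp only [MvPolynomial.coe_basisMonomials] at h1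
  exact (h1 _).trans (if_pos h)

lemma qj_neg {j : ι} {β : ι →₀ ℕ} (h : ¬(β j ≠ 0 ∧ ∀ i < j, β i = 0)) :
    qj k j (MvPolynomial.monomial β 1) = 0 := by
  unfold qj
  have h1 := fun f : (ι →₀ ℕ) → MvPolynomial ι k => (MvPolynomial.basisMonomials ι k).constr_basis k f β
  simp only [MvPolynomial.coe_basisMonomials] at h1
  exact (h1 _).trans (if_neg h)

lemma mon_ext {W : Type} [AddCommGroup W] [Module k W] {f h : MvPolynomial ι k →ₗ[k] W}
    (H : ∀ β : ι →₀ ℕ, f (MvPolynomial.monomial β 1) = h (MvPolynomial.monomial β 1)) : f = h := by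
  refine (MvPolynomial.basisMonomials ι k).ext fun β => ?_
  rw [MvPolynomial.coe_basisMonomials]
  exact H β

/-- multiplication by a variable -/
noncomputable abbrev Mi (k : Type) [Field k] {ι : Type} (i : ι) : MvPolynomial ι k →ₗ[k] MvPolynomial ι k :=
  LinearMap.mulLeft k (MvPolynomial.X i)

omit [Fintype ι] [LinearOrder ι] in
lemma Mi_mon (i : ι) (β : ι →₀ ℕ) : Mi k i (MvPolynomial.monomial β 1) =
    MvPolynomial.monomial (Finsupp.single i 1 + β) 1 := by
  rw [LinearMap.mulLeft_apply]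
  rw [MvPolynomial.X, MvPolynomial.monomial_mul, one_mul]

lemma q_lt {i j : ι} (h : i < j) : qj k j ∘ₗ Mi k i = 0 := by
  refine mon_ext fun β => ?_
  rw [LinearMap.comp_apply, Mi_mon, qj_neg]
  · rfl
  · rintro ⟨-, h2⟩
    have := h2 i h
    rw [Finsupp.add_apply, Finsupp.single_eq_same] at this
    omega

lemma q_gt {i j : ι} (h : j < i) : qj k j ∘ₗ Mi k i = Mi k i ∘ₗ qj k j := by
  refine mon_ext fun β => ?_
  have e1 : ∀ l, l ≤ j → (Finsupp.single i 1 + β : ι →₀ ℕ) l = β l := by
    intro l hl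
    rw [Finsupp.add_apply, Finsupp.single_eq_of_ne (lt_of_le_of_lt hl h).ne, zero_add]
  rw [LinearMap.comp_apply, LinearMap.comp_apply, Mi_mon]
  have e2 : (∀ l < j, (Finsupp.single i 1 + β : ι →₀ ℕ) l = 0) ↔ ∀ l < j, β l = 0 :=
    forall_congr' fun l => forall_congr' fun hl => by rw [e1 l hl.le]
  by_cases hc : β j ≠ 0 ∧ ∀ l < j, β l = 0
  · rw [qj_pos hc, qj_pos (by rw [e1 j le_rfl, e2]; exact hc), Mi_mon]
    congr 2
    rw [add_tsub_assoc_of_le]
    rw [Finsupp.single_le_iff]
    exact Nat.one_le_iff_ne_zero.2 hc.1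
  · rw [qj_neg hc, qj_neg (by rw [e1 j le_rfl, e2]; exact hc), map_zero]

lemma q_pos {j : ι} {β : ι →₀ ℕ} (hc : ∀ i < j, β i = 0) : (qj k j ∘ₗ Mi k j) (MvPolynomial.monomial β 1) =
    MvPolynomial.monomial β 1 := by
  rw [LinearMap.comp_apply, Mi_mon, qj_pos]
  · rw [add_tsub_cancel_left]
  · refine ⟨?_, fun l hl => ?_⟩
    · rw [Finsupp.add_apply, Finsupp.single_eq_same]; omega
    · rw [Finsupp.add_apply, Finsupp.single_eq_of_ne hl.ne, zero_add, hc l hl]

lemma q_neg {j : ι} {β : ι →₀ ℕ} (hc : ¬∀ i < j, β i = 0) :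
    (qj k j ∘ₗ Mi k j) (MvPolynomial.monomial β 1) = 0 := by
  rw [LinearMap.comp_apply, Mi_mon, qj_neg]
  rintro ⟨-, h2⟩
  refine hc fun l hl => ?_
  have := h2 l hl
  rwa [Finsupp.add_apply, Finsupp.single_eq_of_ne hl.ne, zero_add] at this

lemma Mq_pos {i : ι} {β : ι →₀ ℕ} (hc : β i ≠ 0 ∧ ∀ l < i, β l = 0) :
    (Mi k i ∘ₗ qj k i) (MvPolynomial.monomial β 1) = MvPolynomial.monomial β 1 := by
  rw [LinearMap.comp_apply, qj_pos hc, Mi_mon]
  congr 2
  rw [add_tsub_cancel_of_le]
  rw [Finsupp.single_le_iff]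
  exact Nat.one_le_iff_ne_zero.2 hc.1

lemma Mq_neg {i : ι} {β : ι →₀ ℕ} (hc : ¬(β i ≠ 0 ∧ ∀ l < i, β l = 0)) :
    (Mi k i ∘ₗ qj k i) (MvPolynomial.monomial β 1) = 0 := by
  rw [LinearMap.comp_apply, qj_neg hc, map_zero]

/-- the operators in the homotopy formula -/
noncomputable def Rj (k : Type) [Field k] {ι : Type} [LinearOrder ι] (j i : ι) :
    MvPolynomial ι k →ₗ[k] MvPolynomial ι k :=
  if i < j then Mi k i ∘ₗ qj k i else if i = j then qj k j ∘ₗ Mi k j else 0

lemma sum_Rj (j : ι) : ∑ i, Rj k j i = LinearMap.id := by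
  refine mon_ext fun β => ?_
  rw [LinearMap.sum_apply, LinearMap.id_apply]
  by_cases hc : ∀ l < j, β l = 0
  · rw [Finset.sum_eq_single j]
    · unfold Rj
      rw [if_neg (lt_irrefl _), if_pos rfl, q_pos hc]
    · intro i _ hi
      unfold Rj
      split_ifs with h1
      · rw [Mq_neg]
        rintro ⟨h2, -⟩
        exact h2 (hc i h1)
      · rfl
    · simp
  · have hex : (Finset.univ.filter fun i => β i ≠ 0).Nonempty := by
      push Not at hc
      obtain ⟨l, -, hl⟩ := hc
      exact ⟨l, by simpa using hl⟩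
    obtain ⟨m, hm⟩ : ∃ m, m = (Finset.univ.filter fun i => β i ≠ 0).min' hex := ⟨_, rfl⟩
    have hm1 : β m ≠ 0 := by
      have := Finset.min'_mem _ hex
      rw [← hm] at this
      simpa using this
    have hm2 : ∀ l, β l ≠ 0 → m ≤ l := by
      intro l hl
      rw [hm]
      exact Finset.min'_le _ _ (by simpa using hl)
    have hmj : m < j := by
      push Not at hc
      obtain ⟨l, hl1, hl2⟩ := hc
      exact lt_of_le_of_lt (hm2 l hl2) hl1
    rw [Finset.sum_eq_single m]
    · unfold Rj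
      rw [if_pos hmj, Mq_pos]
      refine ⟨hm1, fun l hl => ?_⟩
      by_contra h
      exact absurd (hm2 l h) (not_le.2 hl)
    · intro i _ hi
      unfold Rj
      split_ifs with h1 h2
      · rw [Mq_neg]
        rintro ⟨h2, h3⟩
        rcases lt_or_gt_of_ne hi with h | h
        · exact absurd (hm2 i h2) (not_le.2 h)
        · exact hm1 (h3 m h)
      · exact q_neg hc
      · rfl
    · simp

lemma sum_Mq (f : MvPolynomial ι k) : ∑ i, (Mi k i ∘ₗ qj k i) f =
    f - MvPolynomial.homogeneousComponent 0 f := by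
  have h : (∑ i, (Mi k i ∘ₗ qj k i) : MvPolynomial ι k →ₗ[k] MvPolynomial ι k) =
      LinearMap.id - MvPolynomial.homogeneousComponent 0 := by
    refine mon_ext fun β => ?_
    rw [LinearMap.sum_apply, LinearMap.sub_apply, LinearMap.id_apply]
    by_cases hc : β = 0
    · subst hc
      rw [MvPolynomial.homogeneousComponent_of_mem (n := 0)
        (MvPolynomial.isHomogeneous_monomial _ (by simp)), if_pos rfl, sub_self]
      refine Finset.sum_eq_zero fun i _ => ?_
      rw [Mq_neg]
      simp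
    · have hdeg : β.degree ≠ 0 := by
        rw [Ne, Finsupp.degree_eq_zero_iff]
        exact hc
      rw [MvPolynomial.homogeneousComponent_of_mem (n := β.degree)
        (MvPolynomial.isHomogeneous_monomial _ rfl), if_neg (Ne.symm hdeg), sub_zero]
      have hex : (Finset.univ.filter fun i => β i ≠ 0).Nonempty := by
        by_contra h
        rw [Finset.not_nonempty_iff_eq_empty, Finset.filter_eq_empty_iff] at h
        apply hc
        ext l
        simpa using h (Finset.mem_univ l)
      obtain ⟨m, hm⟩ : ∃ m, m = (Finset.univ.filter fun i => β i ≠ 0).min' hex := ⟨_, rfl⟩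
      have hm1 : β m ≠ 0 := by
        have := Finset.min'_mem _ hex
        rw [← hm] at this
        simpa using this
      have hm2 : ∀ l, β l ≠ 0 → m ≤ l := by
        intro l hl
        rw [hm]
        exact Finset.min'_le _ _ (by simpa using hl)
      rw [Finset.sum_eq_single m]
      · rw [Mq_pos]
        refine ⟨hm1, fun l hl => ?_⟩
        by_contra h
        exact absurd (hm2 l h) (not_le.2 hl)
      · intro i _ hi
        rw [Mq_neg]
        rintro ⟨h2, h3⟩
        rcases lt_or_gt_of_ne hi with h | h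
        · exact absurd (hm2 i h2) (not_le.2 h)
        · exact hm1 (h3 m h)
      · simp
  have := LinearMap.congr_fun h f
  rw [LinearMap.sum_apply] at this
  exact this

/-- transpose of the basic homotopy -/
noncomputable def Qt (k : Type) [Field k] {ι : Type} [LinearOrder ι] (j : ι) : Gm k ι →ₗ[k] Gm k ι where
  toFun γ := γ ∘ₗ qj k j
  map_add' _ _ := rfl
  map_smul' _ _ := rfl

/-- the homotopy -/
noncomputable def hop (k : Type) [Field k] {ι : Type} [LinearOrder ι] :
    PP ι (Gm k ι) →ₗ[k] PP ι (Gm k ι) :=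
  Finsupp.lsum k fun I => if h : I.Nonempty then
    ((-1 : k) ^ (I.erase (I.min' h)).card) • (Finsupp.lsingle (I.erase (I.min' h)) ∘ₗ Qt k (I.min' h)) else 0

lemma hop_empty (γ : Gm k ι) : hop k (sn ∅ γ) = 0 := by
  unfold hop sn
  rw [Finsupp.lsum_single, dif_neg (by simp)]
  rfl

lemma hop_ins {j : ι} {J : Finset ι} (h : ∀ l ∈ J, j < l) (γ : Gm k ι) :
    hop k (sn (insert j J) γ) = ((-1 : k) ^ J.card) • sn J (Qt k j γ) := by
  have hne : (insert j J).Nonempty := Finset.insert_nonempty _ _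
  have e1 := min'_ins h hne
  have e2 := erase_ins h
  unfold hop sn
  rw [Finsupp.lsum_single, dif_pos hne]
  simp only [e1, e2]
  rfl

/-- the leading part of the differential -/
noncomputable def dz (k : Type) [Field k] {ι : Type} [LinearOrder ι] [Fintype ι] :
    PP ι (Gm k ι) →ₗ[k] PP ι (Gm k ι) :=
  Finsupp.lsum k fun I => ((-1 : k) ^ I.card) • ∑ i, Wd k i ∘ₗ Finsupp.lsingle I ∘ₗ Ct k i

lemma dz_sn (I : Finset ι) (γ : Gm k ι) :
    dz k (sn I γ) = ((-1 : k) ^ I.card) • ∑ i, Wd k i (sn I (Ct k i γ)) := by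
  unfold dz sn
  rw [Finsupp.lsum_single, LinearMap.smul_apply, LinearMap.sum_apply]
  rfl

lemma sn_zero (I : Finset ι) : sn I (0 : Gm k ι) = (0 : PP ι (Gm k ι)) := Finsupp.single_zero _

/-- **The homotopy formula.** -/
lemma homot (p : PP ι (Gm k ι)) : hop k (dz k p) + dz k (hop k p) = p - sn ∅ (prj k ι 0 (p ∅)) := by
  have key : hop k ∘ₗ dz k + dz k ∘ₗ hop k =
      (LinearMap.id : PP ι (Gm k ι) →ₗ[k] PP ι (Gm k ι)) -
        (Finsupp.lsingle (∅ : Finset ι) ∘ₗ prj k ι 0 ∘ₗ Finsupp.lapply (∅ : Finset ι)) := by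
    refine Finsupp.lhom_ext fun I γ => ?_
    simp only [LinearMap.add_apply, LinearMap.comp_apply, LinearMap.sub_apply, LinearMap.id_apply,
      Finsupp.lapply_apply, Finsupp.lsingle_apply]
    change hop k (dz k (sn I γ)) + dz k (hop k (sn I γ)) = sn I γ - sn ∅ (prj k ι 0 (sn I γ ∅))
    rcases fs_cases I with rfl | ⟨j, J, hJ, rfl, -⟩
    · rw [hop_empty, map_zero, add_zero, dz_sn, Finset.card_empty, pow_zero, one_smul, map_sum,
        Finsupp.single_eq_same]
      have e1 : ∀ i, hop k (Wd k i (sn ∅ (Ct k i γ))) = sn ∅ (γ ∘ₗ (Mi k i ∘ₗ qj k i)) := by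
        intro i
        rw [Wd_lt (by simp), hop_ins (by simp), Finset.card_empty, pow_zero, one_smul]
        rfl
      rw [Finset.sum_congr rfl fun i _ => e1 i, ← sn_sum]
      rw [← Finsupp.single_sub]
      congr 1
      refine LinearMap.ext fun f => ?_
      rw [LinearMap.sum_apply, LinearMap.sub_apply, prj_apply, ← map_sub, ← sum_Mq, map_sum]
      rfl
    · have hne : (insert j J : Finset ι) ≠ ∅ := Finset.insert_ne_empty _ _
      have hjJ : j ∉ J := fun h => lt_irrefl _ (hJ j h)
      rw [Finsupp.single_eq_of_ne (Ne.symm hne), map_zero, sn_zero, sub_zero, hop_ins hJ, map_smul, dz_sn, dz_sn,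
        map_smul, map_sum, smul_smul, ← mul_pow, neg_one_mul, neg_neg, one_pow, one_smul, Finset.smul_sum,
        ← Finset.sum_add_distrib]
      have e1 : ∀ i, ((-1 : k) ^ (insert j J).card) • hop k (Wd k i (sn (insert j J) (Ct k i γ))) +
          Wd k i (sn J (Ct k i (Qt k j γ))) = sn (insert j J) (γ ∘ₗ Rj k j i) := by
        intro i
        rcases lt_trichotomy i j with h | rfl | h
        · have h1 : ∀ l ∈ insert j J, i < l := by
            intro l hl
            rcases Finset.mem_insert.1 hl with rfl | hl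
            · exact h
            · exact h.trans (hJ l hl)
          have h2 : Ct k i (Qt k j γ) = 0 := by
            change γ ∘ₗ (qj k j ∘ₗ Mi k i) = 0
            rw [q_lt h, LinearMap.comp_zero]
          rw [Wd_lt h1, hop_ins h1, h2, sn_zero, map_zero, add_zero, smul_smul, ← mul_pow, neg_one_mul, neg_neg,
            one_pow, one_smul]
          unfold Rj
          rw [if_pos h]
          rfl
        · rw [Wd_mem (Finset.mem_insert_self _ _), map_zero, smul_zero, zero_add, Wd_lt hJ]
          unfold Rj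
          rw [if_neg (lt_irrefl _), if_pos rfl]
          rfl
        · unfold Rj
          rw [if_neg (not_lt.2 h.le), if_neg h.ne']
          rw [LinearMap.comp_zero, sn_zero]
          by_cases hi : i ∈ J
          · rw [Wd_mem (Finset.mem_insert_of_mem hi), Wd_mem hi, map_zero, smul_zero, add_zero]
          · have h3 : ∀ l ∈ insert i J, j < l := by
              intro l hl
              rcases Finset.mem_insert.1 hl with rfl | hl
              · exact h
              · exact hJ l hl
            have h4 : Qt k j (Ct k i γ) = Ct k i (Qt k j γ) := by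
              change γ ∘ₗ (Mi k i ∘ₗ qj k j) = γ ∘ₗ (qj k j ∘ₗ Mi k i)
              rw [q_gt h]
            rw [Wd_notMem (by simp [h.ne', hi]), Wd_notMem hi, map_smul, Finset.insert_comm i j J, hop_ins h3, h4,
              sg_insert hjJ, if_pos h, Finset.card_insert_of_notMem hjJ, Finset.card_insert_of_notMem hi,
              smul_smul, smul_smul, ← add_smul]
            have h5 : ((-1 : k) ^ (J.card + 1) * (-1 * sg k i J * (-1) ^ (J.card + 1)) + sg k i J) = 0 := by
              have h6 : ((-1 : k) ^ (J.card + 1)) * ((-1) ^ (J.card + 1)) = 1 := by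
                rw [← mul_pow, neg_one_mul, neg_neg, one_pow]
              linear_combination (-sg k i J) * h6
            have h7 : ((-1 : k) ^ (J.card + 1) * (-1 * sg k i J) * (-1) ^ (J.card + 1) + sg k i J) = 0 := by
              rw [mul_assoc]; exact h5
            first
              | rw [h5, zero_smul]
              | rw [h7, zero_smul]
      rw [Finset.sum_congr rfl fun i _ => e1 i, ← sn_sum]
      congr 1
      have e2 : ∑ i, γ ∘ₗ Rj k j i = γ ∘ₗ ∑ i, Rj k j i := by
        refine LinearMap.ext fun f => ?_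
        rw [LinearMap.sum_apply, LinearMap.comp_apply, LinearMap.sum_apply, map_sum]
        rfl
      rw [e2, sum_Rj, LinearMap.comp_id]
  exact LinearMap.congr_fun key p

lemma hop_deg {n : ℕ} {p : PP ι (Gm k ι)} (hp : p ∈ Lt k ι (Gm k ι) (n + 1)) : hop k p ∈ Lt k ι (Gm k ι) n := by
  refine Lt_map (fun I γ hI => ?_) hp
  rcases fs_cases I with rfl | ⟨j, J, hJ, rfl, hc⟩
  · rw [hop_empty]; exact Submodule.zero_mem _
  · rw [hop_ins hJ]
    exact Submodule.smul_mem _ _ (sn_mem (by omega) _)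

lemma dz_deg {n : ℕ} {p : PP ι (Gm k ι)} (hp : p ∈ Lt k ι (Gm k ι) n) : dz k p ∈ Lt k ι (Gm k ι) (n + 1) := by
  refine Lt_map (fun I γ hI => ?_) hp
  rw [dz_sn]
  exact Submodule.smul_mem _ _ (Submodule.sum_mem _ fun i _ => Wd_deg i (sn_mem hI _))

variable {S : SLie k g V} {b : Module.Basis ι k V}
  {X : V →ₗ[k] PP ι (Gm k ι) →ₗ[k] PP ι (Gm k ι)} {Y : g →ₗ[k] PP ι (Gm k ι) →ₗ[k] PP ι (Gm k ι)}

lemma lead_sn (P : IndM S b (rG b) X Y) (hk : (2:k) ≠ 0) (I : Finset ι) (γ : Gm k ι) :
    Df b X (sn I γ) - dz k (sn I γ) ∈ Lt k ι (Gm k ι) (I.card + 1) := by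
  induction I using Finset.induction_on_min with
  | empty =>
    rw [Df_sn, dz_sn, Finset.card_empty, pow_zero, one_smul, ← Finset.sum_sub_distrib]
    refine Submodule.sum_mem _ fun i _ => ?_
    rw [P.pre.gen i ∅ _ (by simp), Wd_lt (by simp), sub_self]
    exact Submodule.zero_mem _
  | insert j I hj ih =>
    have hjI : j ∉ I := fun h => lt_irrefl _ (hj j h)
    have e1 : Df b X (sn (insert j I) γ) = X (b j) (Df b X (sn I γ)) := by
      rw [← P.pre.gen j I γ hj, Df_X P hk]
    have e2 : dz k (sn (insert j I) γ) = Wd k j (dz k (sn I γ)) := by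
      rw [dz_sn, dz_sn, map_smul, map_sum, Finset.card_insert_of_notMem hjI, pow_succ, mul_smul, neg_one_smul,
        ← Finset.sum_neg_distrib]
      congr 1
      refine Finset.sum_congr rfl fun i _ => ?_
      rw [← Wd_lt (k := k) hj]
      exact neg_eq_of_add_eq_zero_left (Wd_anti j i (sn I (Ct k i γ)))
    have hd : dz k (sn I γ) ∈ Lt k ι (Gm k ι) (I.card + 1 + 1) :=
      dz_deg (sn_mem (Nat.lt_succ_self _) _)
    have e3 := P.pre.lead (I.card + 1) j _ hd
    have e4 := P.pre.degXb (I.card + 1) j ih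
    rw [map_sub] at e4
    rw [e1, e2, Finset.card_insert_of_notMem hjI]
    have e5 := Submodule.add_mem _ e4 (Lt_mono (Nat.le_succ _) e3)
    convert e5 using 1
    abel

lemma lead_D (P : IndM S b (rG b) X Y) (hk : (2:k) ≠ 0) {n : ℕ} {p : PP ι (Gm k ι)}
    (hp : p ∈ Lt k ι (Gm k ι) n) : Df b X p - dz k p ∈ Lt k ι (Gm k ι) n := by
  have := Lt_map (k := k) (φ := Df b X - dz k) (N := Lt k ι (Gm k ι) n) (fun I γ hI => ?_) hp
  · exact this
  · rw [LinearMap.sub_apply]
    exact Lt_mono (by omega) (lead_sn P hk I γ)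

lemma inv_Df (P : IndM S b (rG b) X Y) (hk : (2:k) ≠ 0) {W : Type} [AddCommGroup W] [Module k W]
    {f : Gm k ι →ₗ[k] W} (hf : ∀ (y : g) γ, f (rG b y γ) = 0) (p : PP ι (Gm k ι)) : f (Df b X p ∅) = 0 := by
  have h1 := (P.pre.inv_fun hf).1
  have key : f ∘ₗ Finsupp.lapply ∅ ∘ₗ Df b X = 0 := by
    refine Finsupp.lhom_ext fun I γ => ?_
    simp only [LinearMap.comp_apply, LinearMap.zero_apply, Finsupp.lapply_apply]
    change f (Df b X (sn I γ) ∅) = 0
    rcases fs_cases I with rfl | ⟨j, J, hJ, rfl, hc⟩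
    · rw [Df_sn, Finsupp.finsetSum_apply, map_sum]
      exact Finset.sum_eq_zero fun i _ => h1 _ _
    · rw [← P.pre.gen j J γ hJ, Df_X P hk]
      exact h1 _ _
  exact LinearMap.congr_fun key p

lemma ev1_inv (b : Module.Basis ι k V) (y : g) (γ : Gm k ι) : rG b y γ 1 = 0 := by
  rw [rG_apply, Derivation.map_one_eq_zero, map_zero, neg_zero]

lemma prj0_eq (γ : Gm k ι) (h : γ 1 = 0) : prj k ι 0 γ = 0 := by
  refine LinearMap.ext fun f => ?_
  rw [prj_apply, MvPolynomial.homogeneousComponent_zero, MvPolynomial.C_eq_smul_one, map_smul, h, smul_zero,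
    LinearMap.zero_apply]

/-- **Exactness of the differential.** -/
theorem Df_exact [Infinite k] (P : IndM S b (rG b) X Y) (hk : (2:k) ≠ 0) (p : PP ι (Gm k ι)) (h1 : Df b X p = 0)
    (h2 : p ∅ 1 = 0) : ∃ r, Df b X r = p := by
  have hinv : ∀ r : PP ι (Gm k ι), Df b X r ∅ 1 = 0 := fun r =>
    inv_Df P hk (f := LinearMap.applyₗ (1 : MvPolynomial ι k)) (fun y γ => ev1_inv b y γ) r
  have key : ∀ n : ℕ, ∀ p ∈ Lt k ι (Gm k ι) n, Df b X p = 0 → p ∅ 1 = 0 → ∃ r, Df b X r = p := by
    intro n
    induction n with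
    | zero =>
      intro p hp _ _
      exact ⟨0, by rw [Lt_zero hp, map_zero]⟩
    | succ n ih =>
      intro p hp h1 h2
      have e1 := homot p
      rw [prj0_eq _ h2, sn_zero, sub_zero] at e1
      have e2 : dz k p ∈ Lt k ι (Gm k ι) (n + 1) := by
        have := lead_D P hk hp
        rw [h1, zero_sub] at this
        simpa using Submodule.neg_mem _ this
      have e3 := hop_deg e2
      have e4 := lead_D P hk (hop_deg hp)
      have e5 : p - Df b X (hop k p) ∈ Lt k ι (Gm k ι) n := by
        have := Submodule.sub_mem _ e3 e4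
        convert this using 1
        nth_rw 1 [← e1]
        abel
      obtain ⟨r, hr⟩ := ih _ e5 (by
        rw [map_sub, h1, Df_Df P hk, sub_zero]) (by
        rw [Finsupp.sub_apply, LinearMap.sub_apply, h2, hinv, sub_zero])
      exact ⟨r + hop k p, by rw [map_add, hr, sub_add_cancel]⟩
  exact key (Fintype.card ι + 1) p (Lt_top p (Nat.lt_succ_self _)) h1 h2

end Pool.Agent.V8H22.SLA
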