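import Pool.Agent.V8H22.SLA.B4

/-!
# Homology with respect to an odd element of square zero
-/

set_option autoImplicit false
set_option maxHeartbeats 1000000
set_option linter.unusedSectionVars false

namespace Pool.Agent.V8H22.SLA

section gen
variable {k g V Q ι : Type} [Field k] [LieRing g] [LieAlgebra k g] [AddCommGroup V] [Module k V]
  [LieRingModule g V] [LieModule k g V] [AddCommGroup Q] [Module k Q] [LinearOrder ι]

/-- contraction of the exterior algebra -/
noncomputable def ct (k : Type) [Field k] {Q ι : Type} [AddCommGroup Q] [Module k Q] [LinearOrder ι] (l : ι) :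
    PP ι Q →ₗ[k] PP ι Q :=
  Finsupp.lsum k fun I => if l ∈ I then sg k l (I.erase l) • Finsupp.lsingle (I.erase l) else 0

lemma ct_mem {l : ι} {I : Finset ι} (h : l ∈ I) (q : Q) : ct k l (sn I q) = sg k l (I.erase l) • sn (I.erase l) q := by
  unfold ct sn
  rw [Finsupp.lsum_single, if_pos h]
  rfl

lemma ct_notMem {l : ι} {I : Finset ι} (h : l ∉ I) (q : Q) : ct k l (sn I q) = 0 := by
  unfold ct sn
  rw [Finsupp.lsum_single, if_neg h]
  rfl

lemma sg_sq (l : ι) (I : Finset ι) : sg k l I * sg k l I = 1 := by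
  unfold sg
  rw [← mul_pow, neg_one_mul, neg_neg, one_pow]

lemma ct_Wd (i l : ι) (p : PP ι Q) : Wd k i (ct k l p) + ct k l (Wd k i p) = if i = l then p else 0 := by
  have h : (Wd k i ∘ₗ ct k l + ct k l ∘ₗ Wd k i : PP ι Q →ₗ[k] PP ι Q) = if i = l then LinearMap.id else 0 := by
    refine Finsupp.lhom_ext fun I q => ?_
    simp only [LinearMap.add_apply, LinearMap.comp_apply]
    change Wd k i (ct k l (sn I q)) + ct k l (Wd k i (sn I q)) = _
    by_cases hil : i = l
    · subst hil
      rw [if_pos rfl, LinearMap.id_apply]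
      by_cases hi : i ∈ I
      · rw [ct_mem hi, Wd_mem hi, map_zero, add_zero, map_smul, Wd_notMem (Finset.notMem_erase _ _),
          Finset.insert_erase hi, smul_smul, sg_sq, one_smul]
      · rw [ct_notMem hi, map_zero, zero_add, Wd_notMem hi, map_smul, ct_mem (Finset.mem_insert_self _ _),
          Finset.erase_insert hi, smul_smul, sg_sq, one_smul]
    · rw [if_neg hil, LinearMap.zero_apply]
      by_cases hl : l ∈ I
      · by_cases hi : i ∈ I
        · rw [ct_mem hl, Wd_mem hi, map_zero, add_zero, map_smul, Wd_mem (Finset.mem_erase.2 ⟨hil, hi⟩), smul_zero]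
        · obtain ⟨J, hJ, rfl⟩ : ∃ J, l ∉ J ∧ I = insert l J := ⟨I.erase l, Finset.notMem_erase _ _,
            (Finset.insert_erase hl).symm⟩
          have hiJ : i ∉ J := fun h => hi (Finset.mem_insert_of_mem h)
          rw [ct_mem hl, Wd_notMem hi, Finset.erase_insert hJ, map_smul, map_smul, Wd_notMem hiJ,
            Finset.insert_comm i l J, ct_mem (Finset.mem_insert_self _ _), Finset.erase_insert (by
              simp [Ne.symm hil, hJ]), sg_insert hJ, sg_insert hiJ, smul_smul, smul_smul, ← add_smul]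
          convert zero_smul k _ using 2
          rcases lt_or_gt_of_ne hil with h | h
          · rw [if_pos h, if_neg (not_lt.2 h.le)]
            ring
          · rw [if_pos h, if_neg (not_lt.2 h.le)]
            ring
      · rw [ct_notMem hl, map_zero, zero_add]
        by_cases hi : i ∈ I
        · rw [Wd_mem hi, map_zero]
        · rw [Wd_notMem hi, map_smul, ct_notMem (by simp [Ne.symm hil, hl]), smul_zero]
  have h2 := LinearMap.congr_fun h p
  rw [LinearMap.add_apply, LinearMap.comp_apply, LinearMap.comp_apply] at h2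
  rw [h2]
  split_ifs <;> rfl

lemma ct_deg (l : ι) {n : ℕ} {p : PP ι Q} (hp : p ∈ Lt k ι Q (n + 1)) : ct k l p ∈ Lt k ι Q n := by
  refine Lt_map (fun I q hI => ?_) hp
  by_cases h : l ∈ I
  · rw [ct_mem h]
    refine Submodule.smul_mem _ _ (sn_mem ?_ q)
    have := Finset.card_erase_add_one h
    omega
  · rw [ct_notMem h]; exact Submodule.zero_mem _

lemma ct_deg' (l : ι) {n : ℕ} {p : PP ι Q} (hp : p ∈ Lt k ι Q n) : ct k l p ∈ Lt k ι Q n :=
  ct_deg l (Lt_mono (Nat.le_succ n) hp)

variable [Fintype ι] {S : SLie k g V} {b : Module.Basis ι k V} {ρ : g →ₗ[k] Module.End k Q}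
  {X : V →ₗ[k] PP ι Q →ₗ[k] PP ι Q} {Y : g →ₗ[k] PP ι Q →ₗ[k] PP ι Q}

omit [LinearOrder ι] in
lemma X_sum (b : Module.Basis ι k V) (X : V →ₗ[k] PP ι Q →ₗ[k] PP ι Q) (x : V) (p : PP ι Q) :
    X x p = ∑ i, b.coord i x • X (b i) p := by
  conv_lhs => rw [← show ∑ r, b.coord r x • b r = x by simp [Module.Basis.sum_repr]]
  rw [map_sum, LinearMap.sum_apply]
  refine Finset.sum_congr rfl fun r _ => ?_
  rw [map_smul, LinearMap.smul_apply]

/-- the leading part of the action of an odd element -/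
noncomputable def Wx (b : Module.Basis ι k V) (x : V) : PP ι Q →ₗ[k] PP ι Q := ∑ i, b.coord i x • Wd k i

lemma Wx_apply (x : V) (p : PP ι Q) : Wx b x p = ∑ i, b.coord i x • Wd k i p := by
  unfold Wx
  rw [LinearMap.sum_apply]
  rfl

lemma lead_x (P : IndM S b ρ X Y) (x : V) {n : ℕ} {p : PP ι Q} (hp : p ∈ Lt k ι Q (n + 1)) :
    X x p - Wx b x p ∈ Lt k ι Q n := by
  rw [X_sum b X, Wx_apply, ← Finset.sum_sub_distrib]
  refine Submodule.sum_mem _ fun i _ => ?_
  rw [← smul_sub]
  exact Submodule.smul_mem _ _ (P.pre.lead n i p hp)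

lemma Wx_ct {x : V} {l : ι} (hl : b.coord l x ≠ 0) (p : PP ι Q) :
    Wx b x ((b.coord l x)⁻¹ • ct k l p) + (b.coord l x)⁻¹ • ct k l (Wx b x p) = p := by
  rw [Wx_apply, Wx_apply, map_sum, Finset.smul_sum, ← Finset.sum_add_distrib]
  have e1 : ∀ i, b.coord i x • Wd k i ((b.coord l x)⁻¹ • ct k l p) +
      (b.coord l x)⁻¹ • ct k l (b.coord i x • Wd k i p) = if i = l then p else 0 := by
    intro i
    rw [map_smul, map_smul, smul_comm, ← smul_add, ← smul_add, ct_Wd]
    split_ifs with h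
    · subst h
      rw [smul_smul, inv_mul_cancel₀ hl, one_smul]
    · rw [smul_zero, smul_zero]
  rw [Finset.sum_congr rfl fun i _ => e1 i, Finset.sum_ite_eq' Finset.univ l]
  simp

/-- **The induced module is free over the exterior algebra of an odd element of square zero.** -/
theorem IndM.X_exact (P : IndM S b ρ X Y) (hk : (2:k) ≠ 0) {x : V} (hx0 : x ≠ 0) (hx : S.br x x = 0) (p : PP ι Q)
    (hp : X x p = 0) : ∃ r, X x r = p := by
  obtain ⟨l, hl⟩ : ∃ l, b.coord l x ≠ 0 := by
    by_contra h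
    push Not at h
    apply hx0
    exact b.ext_elem (fun i => by simpa using h i)
  have hXX : ∀ q : PP ι Q, X x (X x q) = 0 := by
    intro q
    have h1 := P.XX x x q
    rw [hx, map_zero, LinearMap.zero_apply, ← two_smul k] at h1
    exact (smul_eq_zero.1 h1).resolve_left hk
  have key : ∀ n : ℕ, ∀ p ∈ Lt k ι Q n, X x p = 0 → ∃ r, X x r = p := by
    intro n
    induction n with
    | zero =>
      intro p hp _
      exact ⟨0, by rw [Lt_zero hp, map_zero]⟩
    | succ n ih =>
      intro p hp h1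
      have e1 := Wx_ct (b := b) hl p
      have e2 := lead_x P x hp
      rw [h1, zero_sub] at e2
      have e3 : (b.coord l x)⁻¹ • ct k l (Wx b x p) ∈ Lt k ι Q n := by
        refine Submodule.smul_mem _ _ (ct_deg' l ?_)
        simpa using Submodule.neg_mem _ e2
      have e4 : (b.coord l x)⁻¹ • ct k l p ∈ Lt k ι Q n := Submodule.smul_mem _ _ (ct_deg l hp)
      have e5 := lead_x P x (Lt_mono (Nat.le_succ n) e4)
      have e6 : p - X x ((b.coord l x)⁻¹ • ct k l p) ∈ Lt k ι Q n := by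
        have := Submodule.sub_mem _ e3 e5
        convert this using 1
        nth_rw 1 [← e1]
        abel
      obtain ⟨r, hr⟩ := ih _ e6 (by rw [map_sub, h1, hXX, sub_zero])
      exact ⟨r + (b.coord l x)⁻¹ • ct k l p, by rw [map_add, hr, sub_add_cancel]⟩
  exact key (Fintype.card ι + 1) p (Lt_top p (Nat.lt_succ_self _)) hp

end gen

variable {k g V ι : Type} [Field k] [LieRing g] [LieAlgebra k g] [AddCommGroup V] [Module k V]
  [LieRingModule g V] [LieModule k g V] [LinearOrder ι] [Fintype ι]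
  {S : SLie k g V} {b : Module.Basis ι k V}
  {X : V →ₗ[k] PP ι (Gm k ι) →ₗ[k] PP ι (Gm k ι)} {Y : g →ₗ[k] PP ι (Gm k ι) →ₗ[k] PP ι (Gm k ι)}

/-- graded version -/
lemma X_exact_gr (P : IndM S b (rG b) X Y) (hk : (2:k) ≠ 0) {x : V} (hx0 : x ≠ 0) (hx : S.br x x = 0) {n : ℕ}
    {p : PP ι (Gm k ι)} (hn : pj k ι n p = p) (hp : X x p = 0) : ∃ r, pj k ι n r = r ∧ X x r = p := by
  obtain ⟨r, hr⟩ := P.X_exact hk hx0 hx p hp
  exact ⟨pj k ι n r, pj_pj n r, by rw [← pj_X P hk, hr, hn]⟩

lemma Df_exact_gr [Infinite k] (P : IndM S b (rG b) X Y) (hk : (2:k) ≠ 0) {n : ℕ}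
    {p : PP ι (Gm k ι)} (hn : pj k ι (n + 1) p = p) (hp : Df b X p = 0) :
    ∃ r, pj k ι (n + 2) r = r ∧ Df b X r = p := by
  have h1 : p ∅ 1 = 0 := by
    rw [← hn]
    unfold pj
    rw [mp_apply, prj_apply]
    have : MvPolynomial.homogeneousComponent (n + 1) (1 : MvPolynomial ι k) = 0 := by
      rw [MvPolynomial.homogeneousComponent_of_mem (n := 0) (MvPolynomial.isHomogeneous_one ι k)]
      rw [if_neg (by omega)]
    rw [this, map_zero]
  obtain ⟨r, hr⟩ := Df_exact P hk p hp h1
  exact ⟨pj k ι (n + 2) r, pj_pj _ r, by rw [Df_pj P hk, hr, hn]⟩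

/-- evaluation functionals -/
noncomputable def evn (b : Module.Basis ι k V) (x : V) (n : ℕ) : Gm k ι :=
  (evv b x).toLinearMap ∘ₗ MvPolynomial.homogeneousComponent n

lemma evn_apply (x : V) (n : ℕ) (f : MvPolynomial ι k) :
    evn b x n f = evv b x (MvPolynomial.homogeneousComponent n f) := rfl

lemma evn_prj (x : V) (n : ℕ) : prj k ι n (evn b x n) = evn b x n := by
  refine LinearMap.ext fun f => ?_
  rw [prj_apply, evn_apply, evn_apply, MvPolynomial.homogeneousComponent_of_mem
    (MvPolynomial.homogeneousComponent_mem n f), if_pos rfl]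

lemma evn_Ct (x : V) (n : ℕ) (i : ι) : Ct k i (evn b x (n + 1)) = b.coord i x • evn b x n := by
  refine LinearMap.ext fun f => ?_
  rw [Ct_apply, evn_apply, hc_X, map_mul, evv_X]
  rfl

lemma evn_hom (x : V) {n : ℕ} {f : MvPolynomial ι k} (hf : f.IsHomogeneous n) : evn b x n f = evv b x f := by
  rw [evn_apply, MvPolynomial.homogeneousComponent_of_mem hf, if_pos rfl]

lemma evn_pj (x : V) (n : ℕ) : pj k ι n (sn ∅ (evn b x n)) = sn ∅ (evn b x n) := by
  rw [pj_sn, evn_prj]

lemma Df_evn (x : V) (n : ℕ) :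
    Df b X (sn ∅ (evn b x (n + 1))) = X x (sn ∅ (evn b x n)) := by
  rw [Df_sn, X_sum b X x]
  refine Finset.sum_congr rfl fun i _ => ?_
  rw [evn_Ct, sn_smul, map_smul]

/-- **The zigzag lemma.** -/
theorem zigzag [Infinite k] (P : IndM S b (rG b) X Y) (hk : (2:k) ≠ 0) {x : V} (hx0 : x ≠ 0)
    (hx : S.br x x = 0) (n : ℕ) : ∀ p : PP ι (Gm k ι), pj k ι n p = p → X x (Df b X p) = 0 →
    ∃ (c : k) (w s : PP ι (Gm k ι)), pj k ι n w = w ∧ pj k ι (n + 1) s = s ∧
      p = c • sn ∅ (evn b x n) + X x w + Df b X s := by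
  induction n with
  | zero =>
    intro p hp _
    have h1 : Df b X p = 0 := by rw [← hp]; exact Df_pj0 P hk p
    have h2 : Df b X (sn ∅ (evn b x 0)) = 0 := by rw [← evn_pj]; exact Df_pj0 P hk _
    obtain ⟨s, hs⟩ := Df_exact P hk (p - (p ∅ 1) • sn ∅ (evn b x 0)) (by
      rw [map_sub, map_smul, h1, h2, smul_zero, sub_zero]) (by
      rw [Finsupp.sub_apply, Finsupp.smul_apply, Finsupp.single_eq_same, LinearMap.sub_apply, LinearMap.smul_apply,
        evn_hom x (MvPolynomial.isHomogeneous_one ι k), map_one (evv b x), smul_eq_mul, mul_one, sub_self])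
    refine ⟨p ∅ 1, 0, pj k ι 1 s, map_zero _, pj_pj _ _, ?_⟩
    rw [Df_pj P hk, hs, map_sub, map_smul, hp, evn_pj, map_zero]
    abel
  | succ n ih =>
    intro p hp h1
    have hD : pj k ι n (Df b X p) = Df b X p := by rw [← Df_pj P hk, hp]
    obtain ⟨p', hp1, hp2⟩ := X_exact_gr P hk hx0 hx hD h1
    have h2 : X x (Df b X p') = 0 := by rw [← Df_X P hk, hp2, Df_Df P hk]
    obtain ⟨c, w', s', -, hs', hw⟩ := ih p' hp1 h2
    have hXX : ∀ q, X x (X x q) = 0 := by
      intro q
      have h1 := P.XX x x q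
      rw [hx, map_zero, LinearMap.zero_apply, ← two_smul k] at h1
      exact (smul_eq_zero.1 h1).resolve_left hk
    have h3 : Df b X (p - c • sn ∅ (evn b x (n + 1)) - X x s') = 0 := by
      rw [map_sub, map_sub, map_smul, Df_evn, Df_X P hk, ← hp2, hw, map_add, map_add, map_smul, hXX]
      abel
    have h4 : pj k ι (n + 1) (p - c • sn ∅ (evn b x (n + 1)) - X x s') =
        p - c • sn ∅ (evn b x (n + 1)) - X x s' := by
      rw [map_sub, map_sub, map_smul, hp, evn_pj, pj_X P hk, hs']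
    obtain ⟨r, hr1, hr2⟩ := Df_exact_gr P hk h4 h3
    refine ⟨c, s', r, hs', hr1, ?_⟩
    rw [hr2]
    abel

end Pool.Agent.V8H22.SLA
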