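import Pool.Agent.V8H22.SLA.D1

/-!
# The finite-dimensional supermodule attached to a form
-/

set_option autoImplicit false
set_option maxHeartbeats 1000000
set_option linter.unusedSectionVars false

namespace Pool.Agent.V8H22.SLA

variable {k g V ι : Type} [Field k] [LieRing g] [LieAlgebra k g] [AddCommGroup V] [Module k V]
  [LieRingModule g V] [LieModule k g V] [LinearOrder ι] [Fintype ι]
  {S : SLie k g V} {b : Module.Basis ι k V}
  {X : V →ₗ[k] PP ι (Gm k ι) →ₗ[k] PP ι (Gm k ι)} {Y : g →ₗ[k] PP ι (Gm k ι) →ₗ[k] PP ι (Gm k ι)}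

/-- the induced module as a supermodule -/
def full (P : IndM S b (rG b) X Y) (σ : PP ι (Gm k ι) →ₗ[k] PP ι (Gm k ι)) (h1 : ∀ x p, σ (X x p) = -X x (σ p))
    (h2 : ∀ y p, σ (Y y p) = Y y (σ p)) (h3 : ∀ p, σ (σ p) = p) : SMod S (PP ι (Gm k ι)) where
  par := σ
  ev := Y
  od := X
  par_par := h3
  par_ev := h2
  par_od := h1
  ev_lie y z m := (P.YY y z m).symm
  od_lie y x m := by rw [P.YX]; abel
  od_br x z m := (P.XX x z m).symm

/-- the subspace of differentials of the elements of degree `n` annihilating `G` -/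
noncomputable def LG (b : Module.Basis ι k V) (X : V →ₗ[k] PP ι (Gm k ι) →ₗ[k] PP ι (Gm k ι)) (n : ℕ)
    (G : MvPolynomial ι k) : Submodule k (PP ι (Gm k ι)) :=
  Submodule.map (Df b X) (LinearMap.ker (pj k ι n - LinearMap.id) ⊓
    LinearMap.ker (LinearMap.applyₗ G ∘ₗ (Finsupp.lapply (∅ : Finset ι) : PP ι (Gm k ι) →ₗ[k] Gm k ι)))

lemma mem_LG {n : ℕ} {G : MvPolynomial ι k} {q : PP ι (Gm k ι)} :
    q ∈ LG b X n G ↔ ∃ p, pj k ι n p = p ∧ p ∅ G = 0 ∧ Df b X p = q := by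
  unfold LG
  rw [Submodule.mem_map]
  constructor
  · rintro ⟨p, ⟨h1, h2⟩, h3⟩
    refine ⟨p, ?_, h2, h3⟩
    have h4 : pj k ι n p - p = 0 := h1
    exact sub_eq_zero.1 h4
  · rintro ⟨p, h1, h2, h3⟩
    refine ⟨p, ⟨?_, h2⟩, h3⟩
    change pj k ι n p - p = 0
    rw [h1, sub_self]

/-- the graded pieces are finite-dimensional -/
lemma fin_gr (n : ℕ) : FiniteDimensional k (LinearMap.ker (pj k ι n - LinearMap.id)) := by
  let T : LinearMap.ker (pj k ι n - LinearMap.id) →ₗ[k]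
      (Finset ι × ((Finset.univ : Finset ι).finsuppAntidiag n : Finset (ι →₀ ℕ)) → k) :=
    { toFun := fun p i => (p : PP ι (Gm k ι)) i.1 (MvPolynomial.monomial i.2 1)
      map_add' := fun p q => rfl
      map_smul' := fun c p => rfl }
  refine FiniteDimensional.of_injective T ?_
  rw [injective_iff_map_eq_zero]
  rintro ⟨p, hp⟩ h0
  have hp' : pj k ι n p = p := by
    have h4 : pj k ι n p - p = 0 := hp
    exact sub_eq_zero.1 h4
  refine Subtype.ext ?_
  refine Finsupp.ext fun I => ?_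
  refine mon_ext fun β => ?_
  change p I (MvPolynomial.monomial β 1) = 0
  by_cases hβ : β.degree = n
  · have hmem : β ∈ (Finset.univ : Finset ι).finsuppAntidiag n := by
      rw [Finset.mem_finsuppAntidiag]
      refine ⟨?_, Finset.subset_univ _⟩
      rw [← hβ, Finsupp.degree_apply]
      exact (Finset.sum_subset (Finset.subset_univ _) fun i _ hi => by simpa using hi).symm
    exact congrFun h0 (I, ⟨β, hmem⟩)
  · rw [← hp']
    unfold pj
    rw [mp_apply, prj_apply, MvPolynomial.homogeneousComponent_of_mem (n := β.degree)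
        (MvPolynomial.isHomogeneous_monomial _ rfl), if_neg (Ne.symm hβ), map_zero]

lemma fin_LG (n : ℕ) (G : MvPolynomial ι k) : FiniteDimensional k (LG b X n G) := by
  have := fin_gr (k := k) (ι := ι) n
  have h2 : FiniteDimensional k (LinearMap.ker (pj k ι n - LinearMap.id) ⊓
    LinearMap.ker (LinearMap.applyₗ G ∘ₗ (Finsupp.lapply (∅ : Finset ι) : PP ι (Gm k ι) →ₗ[k] Gm k ι)) : Submodule k (PP ι (Gm k ι))) :=
    Submodule.finiteDimensional_inf_left _ _
  unfold LG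
  infer_instance

lemma zt_inv {G : MvPolynomial ι k} (hG : ∀ y : g, del b y G = 0) (y : g) (γ : Gm k ι) :
    (LinearMap.applyₗ G : Gm k ι →ₗ[k] k) (rG b y γ) = 0 := by
  change rG b y γ G = 0
  rw [rG_apply, hG, map_zero, neg_zero]

lemma zt_X (P : IndM S b (rG b) X Y) {G : MvPolynomial ι k} (hG : ∀ y : g, del b y G = 0) (x : V)
    (p : PP ι (Gm k ι)) : X x p ∅ G = 0 := (P.pre.inv_fun (zt_inv hG)).1 x p

lemma zt_Y (P : IndM S b (rG b) X Y) {G : MvPolynomial ι k} (hG : ∀ y : g, del b y G = 0) (y : g)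
    (p : PP ι (Gm k ι)) : Y y p ∅ G = 0 := (P.pre.inv_fun (zt_inv hG)).2 y p

lemma zt_D (P : IndM S b (rG b) X Y) (hk : (2:k) ≠ 0) {G : MvPolynomial ι k} (hG : ∀ y : g, del b y G = 0)
    (p : PP ι (Gm k ι)) : Df b X p ∅ G = 0 := inv_Df P hk (zt_inv hG) p

lemma evn_sn (x : V) (n : ℕ) {G : MvPolynomial ι k} (hG : G.IsHomogeneous n) :
    (sn ∅ (evn b x n) : PP ι (Gm k ι)) ∅ G = evv b x G := by
  rw [Finsupp.single_eq_same, evn_hom x hG]

/-- vanishing of the homology where the form does not vanish -/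
lemma LG_ex [Infinite k] (P : IndM S b (rG b) X Y) (hk : (2:k) ≠ 0) {x : V} (hx0 : x ≠ 0)
    (hx : S.br x x = 0) {n : ℕ} {G : MvPolynomial ι k} (hG : ∀ y : g, del b y G = 0)
    (hGn : G.IsHomogeneous (n + 1)) (hGx : evv b x G ≠ 0) {q : PP ι (Gm k ι)} (hq : q ∈ LG b X (n + 1) G)
    (hxq : X x q = 0) : ∃ r ∈ LG b X (n + 1) G, X x r = q := by
  have hXX : ∀ q, X x (X x q) = 0 := by
    intro q
    have h1 := P.XX x x q
    rw [hx, map_zero, LinearMap.zero_apply, ← two_smul k] at h1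
    exact (smul_eq_zero.1 h1).resolve_left hk
  obtain ⟨p, hp1, hp2, rfl⟩ := mem_LG.1 hq
  obtain ⟨c, w, s, hw, hs, h1⟩ := zigzag P hk hx0 hx (n + 1) p hp1 hxq
  have hc : c = 0 := by
    rw [h1, Finsupp.add_apply, Finsupp.add_apply, Finsupp.smul_apply, LinearMap.add_apply, LinearMap.add_apply,
      zt_X P hG, zt_D P hk hG, LinearMap.smul_apply, evn_sn x _ hGn, add_zero, add_zero, smul_eq_mul] at hp2
    exact (mul_eq_zero.1 hp2).resolve_right hGx
  rw [hc, zero_smul, zero_add] at h1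
  have h2 : Df b X p = X x (Df b X w) := by rw [h1, map_add, Df_Df P hk, add_zero, Df_X P hk]
  refine ⟨Df b X (w - (w ∅ G / evv b x G) • sn ∅ (evn b x (n + 1))), mem_LG.2 ⟨_, ?_, ?_, rfl⟩, ?_⟩
  · rw [map_sub, map_smul, evn_pj, hw]
  · rw [Finsupp.sub_apply, Finsupp.smul_apply, LinearMap.sub_apply, LinearMap.smul_apply, evn_sn x _ hGn,
      smul_eq_mul, div_mul_cancel₀ _ hGx, sub_self]
  · rw [map_sub, map_smul, Df_evn, map_sub, map_smul, hXX, smul_zero, sub_zero, h2]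

/-- non-vanishing of the homology where the form vanishes -/
lemma LG_nex [Infinite k] (P : IndM S b (rG b) X Y) (hk : (2:k) ≠ 0) {x : V}
    (hx : S.br x x = 0) {n : ℕ} {G G' : MvPolynomial ι k}
    (hGn : G.IsHomogeneous (n + 1)) (hGx : evv b x G = 0)
    (hG' : ∀ y : g, del b y G' = 0) (hGn' : G'.IsHomogeneous (n + 1)) (hGx' : evv b x G' ≠ 0) :
    ∃ q ∈ LG b X (n + 1) G, X x q = 0 ∧ ∀ r ∈ LG b X (n + 1) G, X x r ≠ q := by
  have hXX : ∀ q, X x (X x q) = 0 := by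
    intro q
    have h1 := P.XX x x q
    rw [hx, map_zero, LinearMap.zero_apply, ← two_smul k] at h1
    exact (smul_eq_zero.1 h1).resolve_left hk
  refine ⟨Df b X (sn ∅ (evn b x (n + 1))), mem_LG.2 ⟨_, evn_pj x _, ?_, rfl⟩, ?_, ?_⟩
  · rw [evn_sn x _ hGn, hGx]
  · rw [Df_evn, hXX]
  · intro r hr hrx
    obtain ⟨w, hw, -, rfl⟩ := mem_LG.1 hr
    have h1 : Df b X (sn ∅ (evn b x (n + 1)) - X x w) = 0 := by
      rw [map_sub, Df_X P hk, hrx, sub_self]
    have h2 : pj k ι (n + 1) (sn ∅ (evn b x (n + 1)) - X x w) = sn ∅ (evn b x (n + 1)) - X x w := by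
      rw [map_sub, evn_pj, pj_X P hk, hw]
    obtain ⟨s, -, hs⟩ := Df_exact_gr P hk h2 h1
    have h3 : sn ∅ (evn b x (n + 1)) = X x w + Df b X s := by rw [hs]; abel
    have h4 := evn_sn (k := k) (b := b) x (n + 1) hGn'
    rw [h3, Finsupp.add_apply, LinearMap.add_apply, zt_X P hG', zt_D P hk hG', add_zero] at h4
    exact hGx' h4.symm

/-- **The supermodule attached to a form.** -/
theorem form_module [Infinite k] (S : SLie k g V) (b : Module.Basis ι k V) (p : ℕ) [hp : Fact p.Prime] [CharP k p]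
    (hk : (2:k) ≠ 0) {d : ℕ} (hd : d ≠ 0) {F : MvPolynomial ι k} (hF : F.IsHomogeneous d) :
    ∃ (M : Type) (_ : AddCommGroup M) (_ : Module k M) (_ : FiniteDimensional k M) (T : SMod S M),
      ∀ x : V, x ≠ 0 → S.br x x = 0 → (T.Ex x ↔ evv b x F ≠ 0) := by
  obtain ⟨X, Y, P⟩ := exists_indM S b (rG b) hk (rG_lie b)
  obtain ⟨σ, s1, s2, s3, s4, s5⟩ := P.exists_par hk
  have hpow : ∀ (H : MvPolynomial ι k) (y : g), del b y (H ^ p) = 0 := by
    intro H y
    rw [Derivation.leibniz_pow]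
    rw [← Nat.cast_smul_eq_nsmul k, CharP.cast_eq_zero, zero_smul]
  obtain ⟨n, hn⟩ : ∃ n, d * p = n + 1 := ⟨d * p - 1, by
    have : 0 < d * p := Nat.mul_pos (Nat.pos_of_ne_zero hd) hp.out.pos
    omega⟩
  have hom : ∀ H : MvPolynomial ι k, H.IsHomogeneous d → (H ^ p).IsHomogeneous (n + 1) := by
    intro H hH
    have := hH.pow p
    rwa [hn] at this
  have i1 : ∀ m ∈ LG b X (n + 1) (F ^ p), (full P σ s1 s2 s3).par m ∈ LG b X (n + 1) (F ^ p) := by
    intro m hm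
    obtain ⟨w, hw1, hw2, rfl⟩ := mem_LG.1 hm
    refine mem_LG.2 ⟨-σ w, ?_, ?_, ?_⟩
    · rw [map_neg, ← pj_sig P hk s1 s4, hw1]
    · rw [Finsupp.neg_apply, s5, LinearMap.neg_apply, hw2, neg_zero]
    · change _ = σ (Df b X w)
      rw [map_neg, Df_sig P hk s1 s4]
  have i2 : ∀ y, ∀ m ∈ LG b X (n + 1) (F ^ p), (full P σ s1 s2 s3).ev y m ∈ LG b X (n + 1) (F ^ p) := by
    intro y m hm
    obtain ⟨w, hw1, hw2, rfl⟩ := mem_LG.1 hm
    refine mem_LG.2 ⟨Y y w, ?_, ?_, ?_⟩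
    · rw [pj_Y P hk, hw1]
    · exact zt_Y P (hpow F) y w
    · rw [Df_Y P hk]
      rfl
  have i3 : ∀ y, ∀ m ∈ LG b X (n + 1) (F ^ p), (full P σ s1 s2 s3).od y m ∈ LG b X (n + 1) (F ^ p) := by
    intro y m hm
    obtain ⟨w, hw1, hw2, rfl⟩ := mem_LG.1 hm
    refine mem_LG.2 ⟨X y w, ?_, ?_, ?_⟩
    · rw [pj_X P hk, hw1]
    · exact zt_X P (hpow F) y w
    · rw [Df_X P hk]
      rfl
  refine ⟨LG b X (n + 1) (F ^ p), inferInstance, inferInstance, fin_LG _ _, (full P σ s1 s2 s3).sub _ i1 i2 i3,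
    fun x hx0 hx => ?_⟩
  rw [SMod.sub_Ex]
  constructor
  · intro h h0
    obtain ⟨l, hl⟩ : ∃ l, b.coord l x ≠ 0 := by
      by_contra h
      push Not at h
      apply hx0
      exact b.ext_elem (fun i => by simpa using h i)
    obtain ⟨q, hq1, hq2, hq3⟩ := LG_nex P hk hx (hom F hF) (by rw [map_pow, h0, zero_pow hp.out.ne_zero])
      (hpow (MvPolynomial.X l ^ d)) (hom _ (by
        have := (MvPolynomial.isHomogeneous_X k l).pow d
        rwa [one_mul] at this)) (by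
        rw [map_pow, map_pow, evv_X]
        exact pow_ne_zero _ (pow_ne_zero _ hl))
    obtain ⟨r, hr1, hr2⟩ := h q hq1 hq2
    exact hq3 r hr1 hr2
  · intro h0 q hq hxq
    exact LG_ex P hk hx0 hx (hpow F) (hom F hF) (by rw [map_pow]; exact pow_ne_zero _ h0) hq hxq

end Pool.Agent.V8H22.SLA
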