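import Pool.Agent.V8H22.SLA.B5

/-!
# Supermodules, tensor products, freeness over the exterior algebra of an odd element
-/

set_option autoImplicit false
set_option maxHeartbeats 1000000
set_option linter.unusedSectionVars false

namespace Pool.Agent.V8H22.SLA

variable {k g V M N : Type} [Field k] [LieRing g] [LieAlgebra k g] [AddCommGroup V] [Module k V]
  [LieRingModule g V] [LieModule k g V] [AddCommGroup M] [Module k M] [AddCommGroup N] [Module k N]

/-- A supermodule over the Lie superalgebra `S`: `par` is the parity involution, whose eigenspaces for the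
eigenvalues `1` and `-1` are the even and the odd part; `ev` and `od` are the actions of the even and of the odd
elements. -/
structure SMod (S : SLie k g V) (M : Type) [AddCommGroup M] [Module k M] where
  par : M →ₗ[k] M
  ev : g →ₗ[k] M →ₗ[k] M
  od : V →ₗ[k] M →ₗ[k] M
  par_par : ∀ m, par (par m) = m
  par_ev : ∀ y m, par (ev y m) = ev y (par m)
  par_od : ∀ x m, par (od x m) = -od x (par m)
  ev_lie : ∀ y z m, ev ⁅y, z⁆ m = ev y (ev z m) - ev z (ev y m)
  od_lie : ∀ y x m, od ⁅y, x⁆ m = ev y (od x m) - od x (ev y m)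
  od_br : ∀ x z m, ev (S.br x z) m = od x (od z m) + od z (od x m)

/-- the homology of an odd element vanishes -/
def SMod.Ex {S : SLie k g V} (T : SMod S M) (x : V) : Prop := ∀ m, T.od x m = 0 → ∃ r, T.od x r = m

/-- freeness over the exterior algebra generated by `x` -/
def SMod.Free {S : SLie k g V} (T : SMod S M) (x : V) : Prop :=
  ∃ (J : Type) (B : Module.Basis (J ⊕ J) k M), ∀ j, B (Sum.inr j) = T.od x (B (Sum.inl j))

variable {S : SLie k g V}

lemma SMod.sq_zero (T : SMod S M) (hk : (2:k) ≠ 0) {x : V} (hx : S.br x x = 0) (m : M) : T.od x (T.od x m) = 0 := by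
  have h1 := T.od_br x x m
  rw [hx, map_zero, LinearMap.zero_apply, ← two_smul k] at h1
  exact (smul_eq_zero.1 h1.symm).resolve_left hk

/-- restriction to an invariant subspace -/
def SMod.sub (T : SMod S M) (L : Submodule k M) (h1 : ∀ m ∈ L, T.par m ∈ L) (h2 : ∀ y, ∀ m ∈ L, T.ev y m ∈ L)
    (h3 : ∀ x, ∀ m ∈ L, T.od x m ∈ L) : SMod S L where
  par := T.par.restrict h1
  ev :=
    { toFun := fun y => (T.ev y).restrict (h2 y)
      map_add' := fun y z => LinearMap.ext fun m => Subtype.ext (by
        simp [LinearMap.restrict_apply])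
      map_smul' := fun c y => LinearMap.ext fun m => Subtype.ext (by
        simp [LinearMap.restrict_apply]) }
  od :=
    { toFun := fun x => (T.od x).restrict (h3 x)
      map_add' := fun y z => LinearMap.ext fun m => Subtype.ext (by
        simp [LinearMap.restrict_apply])
      map_smul' := fun c y => LinearMap.ext fun m => Subtype.ext (by
        simp [LinearMap.restrict_apply]) }
  par_par m := Subtype.ext (T.par_par m)
  par_ev y m := Subtype.ext (T.par_ev y m)
  par_od x m := Subtype.ext (T.par_od x m)
  ev_lie y z m := Subtype.ext (T.ev_lie y z m)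
  od_lie y x m := Subtype.ext (T.od_lie y x m)
  od_br x z m := Subtype.ext (T.od_br x z m)

lemma SMod.sub_Ex (T : SMod S M) (L : Submodule k M) (h1 : ∀ m ∈ L, T.par m ∈ L) (h2 : ∀ y, ∀ m ∈ L, T.ev y m ∈ L)
    (h3 : ∀ x, ∀ m ∈ L, T.od x m ∈ L) (x : V) :
    (T.sub L h1 h2 h3).Ex x ↔ ∀ m ∈ L, T.od x m = 0 → ∃ r ∈ L, T.od x r = m := by
  constructor
  · intro h m hm hx
    obtain ⟨r, hr⟩ := h ⟨m, hm⟩ (Subtype.ext hx)
    exact ⟨r, r.2, congrArg Subtype.val hr⟩
  · intro h m hx
    obtain ⟨r, hr1, hr2⟩ := h m m.2 (congrArg Subtype.val hx)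
    exact ⟨⟨r, hr1⟩, Subtype.ext hr2⟩

/-- the trivial module -/
def SMod.triv (S : SLie k g V) : SMod S k where
  par := LinearMap.id
  ev := 0
  od := 0
  par_par _ := rfl
  par_ev _ _ := rfl
  par_od _ _ := by simp
  ev_lie _ _ _ := by simp
  od_lie _ _ _ := by simp
  od_br _ _ _ := by simp

open TensorProduct

/-- the tensor product of two supermodules -/
noncomputable def SMod.tens (T : SMod S M) (T' : SMod S N) : SMod S (M ⊗[k] N) where
  par := TensorProduct.map T.par T'.par
  ev :=
    { toFun := fun y => TensorProduct.map (T.ev y) LinearMap.id + TensorProduct.map LinearMap.id (T'.ev y)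
      map_add' := fun y z => TensorProduct.ext' fun m n => by
        simp only [LinearMap.add_apply, TensorProduct.map_tmul, map_add, LinearMap.id_apply, add_tmul, tmul_add]
        abel
      map_smul' := fun c y => TensorProduct.ext' fun m n => by
        simp only [LinearMap.add_apply, TensorProduct.map_tmul, map_smul, LinearMap.id_apply, LinearMap.smul_apply,
          smul_tmul', tmul_smul, smul_add, RingHom.id_apply] }
  od :=
    { toFun := fun x => TensorProduct.map (T.od x) LinearMap.id + TensorProduct.map T.par (T'.od x)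
      map_add' := fun y z => TensorProduct.ext' fun m n => by
        simp only [LinearMap.add_apply, TensorProduct.map_tmul, map_add, LinearMap.id_apply, add_tmul, tmul_add]
        abel
      map_smul' := fun c y => TensorProduct.ext' fun m n => by
        simp only [LinearMap.add_apply, TensorProduct.map_tmul, map_smul, LinearMap.id_apply, LinearMap.smul_apply,
          smul_tmul', tmul_smul, smul_add, RingHom.id_apply] }
  par_par t := by
    induction t using TensorProduct.induction_on with
    | zero => simp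
    | add a b ha hb => rw [map_add, map_add, ha, hb]
    | tmul m n => rw [TensorProduct.map_tmul, TensorProduct.map_tmul, T.par_par, T'.par_par]
  par_ev y t := by
    induction t using TensorProduct.induction_on with
    | zero => simp
    | add a b ha hb => rw [map_add, map_add, ha, hb, map_add, map_add]
    | tmul m n =>
      simp only [LinearMap.coe_mk, AddHom.coe_mk, LinearMap.add_apply, TensorProduct.map_tmul, map_add,
        LinearMap.id_apply, T.par_ev, T'.par_ev]
  par_od y t := by
    induction t using TensorProduct.induction_on with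
    | zero => simp
    | add a b ha hb => rw [map_add, map_add, ha, hb, map_add, map_add, neg_add]
    | tmul m n =>
      simp only [LinearMap.coe_mk, AddHom.coe_mk, LinearMap.add_apply, TensorProduct.map_tmul, map_add,
        LinearMap.id_apply, T.par_od, T'.par_od, neg_tmul, tmul_neg, neg_add]
  ev_lie y z t := by
    induction t using TensorProduct.induction_on with
    | zero => simp
    | add a b ha hb =>
      simp only [map_add] at ha hb ⊢
      rw [ha, hb]
      abel
    | tmul m n =>
      simp only [LinearMap.coe_mk, AddHom.coe_mk, LinearMap.add_apply, TensorProduct.map_tmul, map_add,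
        LinearMap.id_apply, T.ev_lie, T'.ev_lie, sub_tmul, tmul_sub]
      abel
  od_lie y x t := by
    induction t using TensorProduct.induction_on with
    | zero => simp
    | add a b ha hb =>
      simp only [map_add] at ha hb ⊢
      rw [ha, hb]
      abel
    | tmul m n =>
      simp only [LinearMap.coe_mk, AddHom.coe_mk, LinearMap.add_apply, TensorProduct.map_tmul, map_add,
        LinearMap.id_apply, T.od_lie, T'.od_lie, sub_tmul, tmul_sub, T.par_ev]
      abel
  od_br x z t := by
    induction t using TensorProduct.induction_on with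
    | zero => simp
    | add a b ha hb =>
      simp only [map_add] at ha hb ⊢
      rw [ha, hb]
      abel
    | tmul m n =>
      simp only [LinearMap.coe_mk, AddHom.coe_mk, LinearMap.add_apply, TensorProduct.map_tmul, map_add,
        LinearMap.id_apply, T.od_br, T'.od_br, add_tmul, tmul_add, T.par_od, neg_tmul, T.par_par]
      abel

lemma SMod.tens_od (T : SMod S M) (T' : SMod S N) (x : V) (m : M) (n : N) :
    (T.tens T').od x (m ⊗ₜ n) = T.od x m ⊗ₜ n + T.par m ⊗ₜ T'.od x n := rfl

lemma exists_quasi (f : M →ₗ[k] M) : ∃ t : M →ₗ[k] M, ∀ m, f (t (f m)) = f m := by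
  obtain ⟨t, ht⟩ := f.rangeRestrict.exists_rightInverse_of_surjective f.range_rangeRestrict
  obtain ⟨t', ht'⟩ := LinearMap.exists_extend (p := LinearMap.range f) t
  refine ⟨t', fun m => ?_⟩
  have h1 : t' (f m) = t ⟨f m, LinearMap.mem_range_self f m⟩ := by
    rw [← ht']; rfl
  have h2 := LinearMap.congr_fun ht ⟨f m, LinearMap.mem_range_self f m⟩
  rw [h1]
  exact congrArg Subtype.val h2

/-- a contracting homotopy -/
lemma SMod.Ex.homotopy {T : SMod S M} {x : V} (h : T.Ex x) (hx : ∀ m, T.od x (T.od x m) = 0) :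
    ∃ s : M →ₗ[k] M, ∀ m, T.od x (s m) + s (T.od x m) = m := by
  obtain ⟨t, ht⟩ := exists_quasi (T.od x)
  refine ⟨t ∘ₗ (LinearMap.id - t ∘ₗ T.od x), fun m => ?_⟩
  simp only [LinearMap.comp_apply, LinearMap.sub_apply, LinearMap.id_apply]
  have h1 : T.od x (m - t (T.od x m)) = 0 := by rw [map_sub, ht, sub_self]
  obtain ⟨r, hr⟩ := h _ h1
  rw [← hr, ht, hr, hx, map_zero, sub_zero, sub_add_cancel]

/-- an odd contracting homotopy -/
lemma SMod.Ex.homotopy' {T : SMod S M} {x : V} (h : T.Ex x) (hx : ∀ m, T.od x (T.od x m) = 0) (hk : (2:k) ≠ 0) :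
    ∃ s : M →ₗ[k] M, (∀ m, T.od x (s m) + s (T.od x m) = m) ∧ ∀ m, T.par (s m) = -s (T.par m) := by
  obtain ⟨s, hs⟩ := h.homotopy hx
  refine ⟨(2⁻¹ : k) • (s - T.par ∘ₗ s ∘ₗ T.par), fun m => ?_, fun m => ?_⟩
  · simp only [LinearMap.comp_apply, LinearMap.sub_apply, LinearMap.smul_apply, map_smul, map_sub]
    have h1 := hs m
    have h2 := congrArg T.par (hs (T.par m))
    have h3 : T.par (T.od x (s (T.par m))) = -T.od x (T.par (s (T.par m))) := T.par_od _ _
    have h4 : T.par (T.od x m) = -T.od x (T.par m) := T.par_od _ _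
    rw [map_add, h3, T.par_par] at h2
    rw [h4, map_neg, map_neg]
    have hk' : (2⁻¹ : k) * 2 = 1 := inv_mul_cancel₀ hk
    have h5 : (2⁻¹ : k) • ((2:k) • m) = m := by rw [smul_smul, hk', one_smul]
    conv_rhs => rw [← h5]
    linear_combination (norm := module) (2⁻¹ : k) • h1 + (2⁻¹ : k) • h2
  · simp only [LinearMap.comp_apply, LinearMap.sub_apply, LinearMap.smul_apply, map_smul, map_sub, T.par_par]
    module

/-- **The homology of a tensor product.** -/
theorem SMod.tens_Ex (T : SMod S M) (T' : SMod S N) (hk : (2:k) ≠ 0) {x : V} (hx : S.br x x = 0) :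
    (T.tens T').Ex x ↔ T.Ex x ∨ T'.Ex x := by
  have q1 := T.sq_zero hk hx
  have q2 := T'.sq_zero hk hx
  constructor
  · intro h
    by_contra hc
    push Not at hc
    obtain ⟨c1, c2⟩ := hc
    unfold SMod.Ex at c1 c2
    push Not at c1 c2
    obtain ⟨m, hm1, hm2⟩ := c1
    obtain ⟨n, hn1, hn2⟩ := c2
    obtain ⟨α, hα1, hα2⟩ := LinearMap.exists_extend_of_notMem (p := LinearMap.range (T.od x)) (v := m)
      (0 : _ →ₗ[k] k) (by rintro ⟨r, hr⟩; exact hm2 r hr) 1
    obtain ⟨β, hβ1, hβ2⟩ := LinearMap.exists_extend_of_notMem (p := LinearMap.range (T'.od x)) (v := n)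
      (0 : _ →ₗ[k] k) (by rintro ⟨r, hr⟩; exact hn2 r hr) 1
    have hα : ∀ r, α (T.od x r) = 0 := fun r => LinearMap.congr_fun hα1 ⟨T.od x r, r, rfl⟩
    have hβ : ∀ r, β (T'.od x r) = 0 := fun r => LinearMap.congr_fun hβ1 ⟨T'.od x r, r, rfl⟩
    obtain ⟨r, hr⟩ := h (m ⊗ₜ n) (by rw [SMod.tens_od, hm1, hn1, zero_tmul, tmul_zero, add_zero])
    have h1 : ((TensorProduct.lid k k).toLinearMap ∘ₗ TensorProduct.map α β) ∘ₗ ((T.tens T').od x) = 0 := by
      refine TensorProduct.ext' fun a c => ?_
      rw [LinearMap.comp_apply, SMod.tens_od]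
      simp [hα, hβ]
    have h2 := LinearMap.congr_fun h1 r
    rw [LinearMap.comp_apply, hr] at h2
    simp [hα2, hβ2] at h2
  · rintro (h | h) t ht
    · obtain ⟨s, hs, hs'⟩ := h.homotopy' q1 hk
      have h1 : (T.tens T').od x ∘ₗ TensorProduct.map s LinearMap.id +
          TensorProduct.map s LinearMap.id ∘ₗ (T.tens T').od x = LinearMap.id := by
        refine TensorProduct.ext' fun a c => ?_
        rw [LinearMap.add_apply, LinearMap.comp_apply, LinearMap.comp_apply, SMod.tens_od, TensorProduct.map_tmul,
          SMod.tens_od, map_add, TensorProduct.map_tmul, TensorProduct.map_tmul, hs', neg_tmul]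
        simp only [LinearMap.id_apply]
        have h3 : T.od x (s a) ⊗ₜ c + s (T.od x a) ⊗ₜ c = a ⊗ₜ[k] c := by rw [← add_tmul, hs]
        rw [← h3]
        abel
      have h2 := LinearMap.congr_fun h1 t
      rw [LinearMap.add_apply, LinearMap.comp_apply, LinearMap.comp_apply, ht, map_zero, add_zero] at h2
      exact ⟨_, h2⟩
    · obtain ⟨s, hs⟩ := h.homotopy q2
      have h1 : (T.tens T').od x ∘ₗ TensorProduct.map T.par s +
          TensorProduct.map T.par s ∘ₗ (T.tens T').od x = LinearMap.id := by
        refine TensorProduct.ext' fun a c => ?_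
        rw [LinearMap.add_apply, LinearMap.comp_apply, LinearMap.comp_apply, SMod.tens_od, TensorProduct.map_tmul,
          SMod.tens_od, map_add, TensorProduct.map_tmul, TensorProduct.map_tmul, T.par_od, T.par_par, neg_tmul]
        simp only [LinearMap.id_apply]
        have h3 : a ⊗ₜ[k] T'.od x (s c) + a ⊗ₜ s (T'.od x c) = a ⊗ₜ[k] c := by rw [← tmul_add, hs]
        rw [← h3]
        abel
      have h2 := LinearMap.congr_fun h1 t
      rw [LinearMap.add_apply, LinearMap.comp_apply, LinearMap.comp_apply, ht, map_zero, add_zero] at h2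
      exact ⟨_, h2⟩

/-- **Freeness is vanishing of the homology.** -/
theorem SMod.free_iff (T : SMod S M) (hk : (2:k) ≠ 0) {x : V} (hx : S.br x x = 0) : T.Free x ↔ T.Ex x := by
  have q := T.sq_zero hk hx
  constructor
  · rintro ⟨J, B, hB⟩ m hm
    have hz : ∀ j, T.od x (B (Sum.inr j)) = 0 := fun j => by rw [hB, q]
    obtain ⟨R, hR⟩ : ∃ R, R = B.constr k (Sum.elim (fun _ => (0 : M)) fun j => B (Sum.inl j)) := ⟨_, rfl⟩
    have hR1 : ∀ j, R (B (Sum.inl j)) = 0 := fun j => by rw [hR, B.constr_basis]; rfl
    have hR2 : ∀ j, R (B (Sum.inr j)) = B (Sum.inl j) := fun j => by rw [hR, B.constr_basis]; rfl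
    have h1 : T.od x ∘ₗ R + R ∘ₗ T.od x = LinearMap.id := by
      refine B.ext fun j => ?_
      rcases j with j | j
      · rw [LinearMap.add_apply, LinearMap.comp_apply, LinearMap.comp_apply, hR1, map_zero, zero_add, ← hB, hR2]
        rfl
      · rw [LinearMap.add_apply, LinearMap.comp_apply, LinearMap.comp_apply, hR2, hz, map_zero, add_zero, ← hB]
        rfl
    have h2 := LinearMap.congr_fun h1 m
    rw [LinearMap.add_apply, LinearMap.comp_apply, LinearMap.comp_apply, hm, map_zero, add_zero] at h2
    exact ⟨_, h2⟩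
  · intro h
    obtain ⟨C, hC⟩ := (LinearMap.ker (T.od x)).exists_isCompl
    have hinj : ∀ c ∈ C, T.od x c = 0 → c = 0 := by
      intro c hc h0
      have : c ∈ LinearMap.ker (T.od x) ⊓ C := ⟨h0, hc⟩
      rw [hC.inf_eq_bot] at this
      exact this
    have hdec : ∀ m, ∃ c ∈ C, T.od x (m - c) = 0 := by
      intro m
      have : m ∈ LinearMap.ker (T.od x) ⊔ C := by rw [hC.sup_eq_top]; trivial
      obtain ⟨a, ha, c, hc, hac⟩ := Submodule.mem_sup.1 this
      exact ⟨c, hc, by rw [← hac, add_sub_cancel_right]; exact ha⟩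
    let F : (C × C) →ₗ[k] M := LinearMap.coprod C.subtype (T.od x ∘ₗ C.subtype)
    have hF : ∀ a c : C, F (a, c) = (a : M) + T.od x c := fun a c => by simp [F]
    have hbij : Function.Bijective F := by
      constructor
      · rw [injective_iff_map_eq_zero]
        rintro ⟨a, c⟩ h0
        rw [hF] at h0
        have h1 := congrArg (T.od x) h0
        rw [map_add, q, add_zero, map_zero] at h1
        have h2 := hinj a a.2 h1
        rw [h2, zero_add] at h0
        have h3 := hinj c c.2 h0
        exact Prod.ext (Subtype.ext h2) (Subtype.ext h3)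
      · intro m
        obtain ⟨a, ha, h1⟩ := hdec m
        obtain ⟨r, hr⟩ := h _ h1
        obtain ⟨c, hc, h2⟩ := hdec r
        refine ⟨(⟨a, ha⟩, ⟨c, hc⟩), ?_⟩
        rw [hF]
        rw [map_sub, sub_eq_zero] at h2
        rw [← h2, hr]
        simp
    let e := LinearEquiv.ofBijective F hbij
    let bC := Module.Basis.ofVectorSpace k C
    refine ⟨_, (bC.prod bC).map e, fun j => ?_⟩
    rw [Module.Basis.map_apply, Module.Basis.map_apply]
    have e1 : (bC.prod bC) (Sum.inr j) = (0, bC j) := by
      refine Prod.ext ?_ ?_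
      · rw [Module.Basis.prod_apply_inr_fst]
      · rw [Module.Basis.prod_apply_inr_snd]
    have e2 : (bC.prod bC) (Sum.inl j) = (bC j, 0) := by
      refine Prod.ext ?_ ?_
      · rw [Module.Basis.prod_apply_inl_fst]
      · rw [Module.Basis.prod_apply_inl_snd]
    rw [e1, e2]
    change F (0, bC j) = T.od x (F (bC j, 0))
    rw [hF, hF]
    simp

end Pool.Agent.V8H22.SLA
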