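import Pool.Agent.V8H22.SLA.C1

/-!
# Realization of closed cones
-/

set_option autoImplicit false
set_option maxHeartbeats 1000000
set_option linter.unusedSectionVars false

namespace Pool.Agent.V8H22.SLA

variable {k g V ι : Type} [Field k] [LieRing g] [LieAlgebra k g] [AddCommGroup V] [Module k V]
  [LieRingModule g V] [LieModule k g V] [LinearOrder ι] [Fintype ι]

lemma evv_eq (b : Module.Basis ι k V) (x : V) (f : MvPolynomial ι k) :
    evv b x f = MvPolynomial.eval (fun i => b.repr x i) f := by
  unfold evv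
  rfl

lemma evv_smul (b : Module.Basis ι k V) (x : V) (c : k) {m : ℕ} {F : MvPolynomial ι k} (hF : F.IsHomogeneous m) :
    evv b (c • x) F = c ^ m * evv b x F := by
  rw [evv_eq, evv_eq, MvPolynomial.eval_eq', MvPolynomial.eval_eq', Finset.mul_sum]
  refine Finset.sum_congr rfl fun β hβ => ?_
  have h1 : β.degree = m := by
    have := hF (MvPolynomial.mem_support_iff.1 hβ)
    rw [← this, Finsupp.degree_eq_weight_one]
    rfl
  have h2 : ∏ i, ((b.repr (c • x)) i) ^ β i = c ^ m * ∏ i, (b.repr x i) ^ β i := by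
    simp only [map_smul, Finsupp.smul_apply, smul_eq_mul, mul_pow]
    rw [Finset.prod_mul_distrib, Finset.prod_pow_eq_pow_sum]
    congr 2
    rw [← h1, Finsupp.degree_apply]
    exact (Finset.sum_subset (Finset.subset_univ _) fun i _ hi => by simpa using hi).symm
  rw [h2]
  ring

/-- the homogeneous components vanish on a cone -/
lemma comp_vanish [Infinite k] (b : Module.Basis ι k V) {x : V} {f : MvPolynomial ι k}
    (h : ∀ c : k, evv b (c • x) f = 0) (m : ℕ) : evv b x (MvPolynomial.homogeneousComponent m f) = 0 := by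
  obtain ⟨N, hN⟩ : ∃ N, N = f.totalDegree + 1 := ⟨_, rfl⟩
  let P : Polynomial k := ∑ i ∈ Finset.range N,
    Polynomial.C (evv b x (MvPolynomial.homogeneousComponent i f)) * Polynomial.X ^ i
  have hP : P = 0 := by
    refine Polynomial.funext fun c => ?_
    rw [Polynomial.eval_zero, ← h c]
    conv_rhs => rw [← MvPolynomial.sum_homogeneousComponent f]
    rw [map_sum, ← hN, Polynomial.eval_finsetSum]
    refine Finset.sum_congr rfl fun i _ => ?_
    rw [evv_smul b x c (MvPolynomial.homogeneousComponent_isHomogeneous i f)]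
    rw [Polynomial.eval_mul, Polynomial.eval_C, Polynomial.eval_pow, Polynomial.eval_X, mul_comm]
  by_cases hm : m < N
  · have h1 : P.coeff m = evv b x (MvPolynomial.homogeneousComponent m f) := by
      simp only [P, Polynomial.finsetSum_coeff, Polynomial.coeff_C_mul, Polynomial.coeff_X_pow]
      rw [Finset.sum_eq_single m]
      · simp
      · intro i _ hi
        rw [if_neg (Ne.symm hi), mul_zero]
      · intro hm'
        exact absurd (Finset.mem_range.2 hm) hm'
    rw [← h1, hP, Polynomial.coeff_zero]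
  · rw [MvPolynomial.homogeneousComponent_eq_zero _ _ (by omega), map_zero]

/-- **Modules for finitely many forms.** -/
theorem forms_module [Infinite k] (S : SLie k g V) (b : Module.Basis ι k V) (p : ℕ) [hp : Fact p.Prime] [CharP k p]
    (hk : (2:k) ≠ 0) (s : Finset (MvPolynomial ι k)) (hs : ∀ F ∈ s, ∃ d, d ≠ 0 ∧ F.IsHomogeneous d) :
    ∃ (M : Type) (_ : AddCommGroup M) (_ : Module k M) (_ : FiniteDimensional k M) (T : SMod S M),
      ∀ x : V, x ≠ 0 → S.br x x = 0 → (T.Ex x ↔ ∃ F ∈ s, evv b x F ≠ 0) := by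
  classical
  induction s using Finset.induction_on with
  | empty =>
    refine ⟨k, inferInstance, inferInstance, inferInstance, SMod.triv S, fun x _ _ => ?_⟩
    constructor
    · intro h
      obtain ⟨r, hr⟩ := h (1 : k) rfl
      exact absurd hr.symm one_ne_zero
    · rintro ⟨F, hF, -⟩
      exact absurd hF (Finset.notMem_empty _)
  | insert F s hF ih =>
    obtain ⟨M, i1, i2, i3, T, hT⟩ := ih fun F hF => hs F (Finset.mem_insert_of_mem hF)
    obtain ⟨d, hd, hFd⟩ := hs F (Finset.mem_insert_self _ _)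
    obtain ⟨N, j1, j2, j3, T', hT'⟩ := form_module S b p hk hd hFd
    refine ⟨TensorProduct k N M, inferInstance, inferInstance, inferInstance, T'.tens T, fun x hx0 hx => ?_⟩
    rw [SMod.tens_Ex T' T hk hx, hT x hx0 hx, hT' x hx0 hx]
    constructor
    · rintro (h | ⟨G, hG, h⟩)
      · exact ⟨F, Finset.mem_insert_self _ _, h⟩
      · exact ⟨G, Finset.mem_insert_of_mem hG, h⟩
    · rintro ⟨G, hG, h⟩
      rcases Finset.mem_insert.1 hG with rfl | hG
      · exact Or.inl h
      · exact Or.inr ⟨G, hG, h⟩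

/-- **Realization.** -/
theorem realization [Infinite k] (S : SLie k g V) (b : Module.Basis ι k V) (p : ℕ) [hp : Fact p.Prime] [CharP k p]
    (hk : (2:k) ≠ 0) (I : Set (MvPolynomial ι k)) (W : Set V)
    (hI : ∀ x, x ∈ W ↔ ∀ f ∈ I, MvPolynomial.eval (fun i => b.repr x i) f = 0)
    (hc : ∀ (c : k), ∀ x ∈ W, c • x ∈ W) (hne : W.Nonempty) :
    ∃ (M : Type) (_ : AddCommGroup M) (_ : Module k M) (_ : FiniteDimensional k M) (T : SMod S M),
      ∀ x : V, x ≠ 0 → S.br x x = 0 → (¬T.Free x ↔ x ∈ W) := by
  have hI' : ∀ x, x ∈ W ↔ ∀ f ∈ I, evv b x f = 0 := by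
    intro x
    rw [hI]
    refine forall_congr' fun f => forall_congr' fun _ => ?_
    rw [evv_eq]
  have h0 : (0 : V) ∈ W := by
    obtain ⟨x, hx⟩ := hne
    have := hc 0 x hx
    rwa [zero_smul] at this
  let J : Set (MvPolynomial ι k) := {F | ∃ f ∈ I, ∃ m : ℕ, m ≠ 0 ∧ F = MvPolynomial.homogeneousComponent m f}
  have hJ : ∀ x, x ∈ W ↔ ∀ F ∈ J, evv b x F = 0 := by
    intro x
    constructor
    · rintro hx F ⟨f, hf, m, -, rfl⟩
      exact comp_vanish b (fun c => (hI' _).1 (hc c x hx) f hf) m
    · intro h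
      rw [hI']
      intro f hf
      rw [← MvPolynomial.sum_homogeneousComponent f, map_sum]
      refine Finset.sum_eq_zero fun m _ => ?_
      by_cases hm : m = 0
      · subst hm
        have h1 := comp_vanish b (x := 0) (f := f) (fun c => by
          rw [smul_zero]; exact (hI' 0).1 h0 f hf) 0
        rw [MvPolynomial.homogeneousComponent_zero] at h1 ⊢
        rw [MvPolynomial.C_eq_smul_one, map_smul, map_one] at h1 ⊢
        exact h1
      · exact h _ ⟨f, hf, m, hm, rfl⟩
  obtain ⟨s, hs1, hs2⟩ := (Submodule.fg_span_iff_fg_span_finset_subset J).1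
    (IsNoetherian.noetherian (Submodule.span (MvPolynomial ι k) J))
  have hs : ∀ x, x ∈ W ↔ ∀ F ∈ s, evv b x F = 0 := by
    intro x
    rw [hJ]
    constructor
    · intro h F hF
      exact h F (hs1 hF)
    · intro h F hF
      have h1 : F ∈ Submodule.span (MvPolynomial ι k) (s : Set (MvPolynomial ι k)) := by
        rw [← hs2]
        exact Submodule.subset_span hF
      refine Submodule.span_induction (p := fun F _ => evv b x F = 0) (fun G hG => h G hG) (map_zero _)
        (fun G H _ _ hG hH => by rw [map_add, hG, hH, add_zero]) (fun a G _ hG => by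
          rw [smul_eq_mul, map_mul, hG, mul_zero]) h1
  obtain ⟨M, i1, i2, i3, T, hT⟩ := forms_module S b p hk s (fun F hF => by
    obtain ⟨f, -, m, hm, rfl⟩ := hs1 hF
    exact ⟨m, hm, MvPolynomial.homogeneousComponent_isHomogeneous m f⟩)
  refine ⟨M, i1, i2, i3, T, fun x hx0 hx => ?_⟩
  rw [T.free_iff hk hx, hT x hx0 hx, hs]
  push Not
  rfl

end Pool.Agent.V8H22.SLA
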